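import Pool.Agent.J4H54.K2.Curve
set_option autoImplicit false

/-!
The regulators of the symbols on the curves `N ∏ (x - a_k) ∏ (y - b_l) = 1` are independent.
-/

namespace Pool.Agent.J4H54.K2

open Pool.Agent.TH826.MK (KQ symb Torus Unramified circ norm_circ contDiff_circ hasDerivAt_circ
  circ_add_one pairing)

open Pool.Agent.TH826.UH (pr NZ pr_div pairing_eq_pr nz_circ)

open Pool.Agent.Y797.GC (Arr evP evP_ly evP_lx evP_C Pt mkT evO evO_toO)

open Finset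

open scoped Real

section loops

variable {m : ℕ} {A : Fin (m + 1) → ℂ} {R : ℝ}

theorem ldc {U : ℂ → ℂ} {W : ℝ → ℂ} (hW : ContDiff ℝ 2 W)
    (hU : ∀ s, AnalyticAt ℂ U (W s)) : ContDiff ℝ 2 fun s => U (W s) := by
  rw [contDiff_iff_contDiffAt]
  intro s
  exact ((hU s).contDiffAt.restrict_scalars ℝ).comp s hW.contDiffAt

/-- the first kind of loops -/
theorem Good.loop (h : Good A R) {W : ℝ → ℂ} {ρ ω : ℝ} (hW : ContDiff ℝ 2 W)
    (hper : ∀ s, W (s + 1) = W s) (hn : ∀ s, ‖W s‖ = ρ)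
    (hd : ∀ s, HasDerivAt W (ω * Complex.I * W s) s) (hρ : 0 < ρ) (hρR : ρ ≤ R)
    (hω : |ω| ≤ 2 * π) (i : Fin (m + 1)) : ∃ X : ℝ → ℂ, LP A R i X W ρ ω := by
  obtain ⟨U, hU⟩ := h.exists_branch
  have hlt : ∀ s, ‖W s‖ < 3 / 2 * R := fun s => by
    rw [hn]
    linarith [h.pos]
  exact ⟨fun s => U i (W s), ldc hW fun s => (hU i (W s) (hlt s)).1, fun s => by rw [hper],
    fun s => (hU i (W s) (hlt s)).2.1, fun s => (hU i (W s) (hlt s)).2.2, hn, hd, hρ, hρR, hω⟩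

theorem inv_loop {N : ℂ} (hN : N ≠ 0) {ρ : ℝ} (hρ : 0 < ρ) :
    ContDiff ℝ 2 (fun s => (N * circ ρ s)⁻¹) ∧
    (∀ s, (N * circ ρ (s + 1))⁻¹ = (N * circ ρ s)⁻¹) ∧
    (∀ s, ‖(N * circ ρ s)⁻¹‖ = (‖N‖ * ρ)⁻¹) ∧
    ∀ s, HasDerivAt (fun s => (N * circ ρ s)⁻¹)
      (((-(2 * π) : ℝ) : ℂ) * Complex.I * (N * circ ρ s)⁻¹) s := by
  have hne : ∀ s, N * circ ρ s ≠ 0 := fun s => mul_ne_zero hN ((nz_circ hρ).ne_zero s)
  refine ⟨(contDiff_const.mul (contDiff_circ ρ)).inv hne, fun s => by rw [circ_add_one],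
    fun s => by rw [norm_inv, norm_mul, norm_circ hρ.le], fun s => ?_⟩
  have h1 := ((hasDerivAt_circ ρ s).const_mul N).inv (hne s)
  refine h1.congr_deriv ?_
  have h2 := (nz_circ hρ).ne_zero s
  push_cast
  field_simp

end loops

section reg

variable {K : Type*} [Field K] {m n : ℕ} {a : Fin (m + 1) → K} {b : Fin (n + 1) → K} {N : K}
  {σ : K →+* ℂ} {Da Db : ℝ}

theorem pr_div_left {G G' H : ℝ → ℂ} (hG : NZ G) (hG' : NZ G') (hH : NZ H) :
    pr (fun s => G s / G' s) H = pr G H - pr G' H := by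
  rw [pr_swap, pr_div hH hG hG', pr_swap H G, pr_swap H G']
  ring

/-- the regulators of the symbols -/
theorem reg_ent {X Y : ℝ → ℂ} (hDa : 0 < Da) (hDb : 0 < Db)
    (hc : ContDiff ℝ 2 fun θ : Fin 1 → ℝ => ((Da * X (θ 0), Db * Y (θ 0)) : ℂ × ℂ))
    (hp : ∀ (θ : Fin 1 → ℝ) i, (((Da : ℂ) * X ((θ + Pi.single i 1 : Fin 1 → ℝ) 0),
      (Db : ℂ) * Y ((θ + Pi.single i 1 : Fin 1 → ℝ) 0)) : ℂ × ℂ) = (Da * X (θ 0), Db * Y (θ 0)))
    (hP : ∀ θ : Fin 1 → ℝ, Pt (grid a b) σ N (Da * X (θ 0), Db * Y (θ 0)))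
    (nX : ∀ k, NZ fun s => X s - nrm σ Da a k) (nY : ∀ l, NZ fun s => Y s - nrm σ Db b l)
    (k : Fin m) (l : Fin n) :
    (mkT (fun θ : Fin 1 → ℝ => ((Da * X (θ 0), Db * Y (θ 0)) : ℂ × ℂ)) hc hp hP).reg
      (ent N a b k l) =
      (pr (fun s => Y s - nrm σ Db b l.succ) (fun s => X s - nrm σ Da a k.succ) -
        pr (fun s => Y s - nrm σ Db b l.succ) (fun s => X s - nrm σ Da a 0)) -
      (pr (fun s => Y s - nrm σ Db b 0) (fun s => X s - nrm σ Da a k.succ) -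
        pr (fun s => Y s - nrm σ Db b 0) (fun s => X s - nrm σ Da a 0)) := by
  have hDa0 : (Da : ℂ) ≠ 0 := by exact_mod_cast hDa.ne'
  have hDb0 : (Db : ℂ) ≠ 0 := by exact_mod_cast hDb.ne'
  rw [← pr_div (nY l.succ) (nX k.succ) (nX 0), ← pr_div (nY 0) (nX k.succ) (nX 0),
    ← pr_div_left (nY l.succ) (nY 0) ((nX k.succ).div (nX 0)),
    ← pairing_eq_pr ((nY l.succ).div (nY 0)) ((nX k.succ).div (nX 0))]
  unfold ent
  rw [Torus.reg_symb]
  unfold Torus.pair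
  have hy : ∀ (θ : Fin 1 → ℝ) (l : Fin (n + 1)),
      evO (hP θ) ((grid a b).uy N l : (grid a b).Open N) = Db * (Y (θ 0) - nrm σ Db b l) := by
    intro θ l
    have h1 : evO (hP θ) ((grid a b).uy N l : (grid a b).Open N) = Db * Y (θ 0) - σ (b l) := by
      refine (evO_toO (hP θ) _).trans ?_
      rw [evP_ly]
      show Db * Y (θ 0) - (Polynomial.C (b l)).eval₂ σ _ = _
      rw [Polynomial.eval₂_C]
    rw [h1, sub_nrm hDb]
    congr 2
    field_simp
  have hx : ∀ (θ : Fin 1 → ℝ) (k : Fin (m + 1)),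
      evO (hP θ) ((grid a b).ux N k : (grid a b).Open N) = Da * (X (θ 0) - nrm σ Da a k) := by
    intro θ k
    have h1 : evO (hP θ) ((grid a b).ux N k : (grid a b).Open N) = Da * X (θ 0) - σ (a k) := by
      refine (evO_toO (hP θ) _).trans ?_
      rw [evP_lx]
      rfl
    rw [h1, sub_nrm hDa]
    congr 2
    field_simp
  congr 1
  funext i θ
  fin_cases i
  · show evO (hP θ) (((grid a b).uy N l.succ / (grid a b).uy N 0 :
      ((grid a b).Open N)ˣ) : (grid a b).Open N) =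
      (Y (θ 0) - nrm σ Db b l.succ) / (Y (θ 0) - nrm σ Db b 0)
    have h1 : evO (hP θ) (((grid a b).uy N l.succ / (grid a b).uy N 0 :
        ((grid a b).Open N)ˣ) : (grid a b).Open N) *
        evO (hP θ) ((grid a b).uy N 0 : (grid a b).Open N) =
        evO (hP θ) ((grid a b).uy N l.succ : (grid a b).Open N) := by
      rw [← map_mul, ← Units.val_mul, div_mul_cancel]
    rw [hy, hy] at h1
    rw [eq_div_iff ((nY 0).ne_zero (θ 0))]
    refine mul_left_cancel₀ hDb0 ?_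
    rw [← h1]
    ring
  · show evO (hP θ) (((grid a b).ux N k.succ / (grid a b).ux N 0 :
      ((grid a b).Open N)ˣ) : (grid a b).Open N) =
      (X (θ 0) - nrm σ Da a k.succ) / (X (θ 0) - nrm σ Da a 0)
    have h1 : evO (hP θ) (((grid a b).ux N k.succ / (grid a b).ux N 0 :
        ((grid a b).Open N)ˣ) : (grid a b).Open N) *
        evO (hP θ) ((grid a b).ux N 0 : (grid a b).Open N) =
        evO (hP θ) ((grid a b).ux N k.succ : (grid a b).Open N) := by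
      rw [← map_mul, ← Units.val_mul, div_mul_cancel]
    rw [hx, hx] at h1
    rw [eq_div_iff ((nX 0).ne_zero (θ 0))]
    refine mul_left_cancel₀ hDa0 ?_
    rw [← h1]
    ring

/-- the extended coefficients -/
noncomputable def ext (c : Fin m → Fin n → ℝ) (l : Fin (n + 1)) (k : Fin (m + 1)) : ℝ :=
  Fin.cases (motive := fun _ => ℝ)
    (Fin.cases (motive := fun _ => ℝ) (∑ k, ∑ l, c k l) (fun k => -∑ l, c k l) k)
    (fun l => Fin.cases (motive := fun _ => ℝ) (-∑ k, c k l) (fun k => c k l) k) l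

theorem ext_row (c : Fin m → Fin n → ℝ) (l : Fin (n + 1)) : ∑ k, ext c l k = 0 := by
  refine Fin.cases ?_ (fun l => ?_) l
  · rw [Fin.sum_univ_succ]
    show (∑ k, ∑ l, c k l) + ∑ k, (-∑ l, c k l) = 0
    rw [sum_neg_distrib]
    ring
  · rw [Fin.sum_univ_succ]
    show (-∑ k, c k l) + ∑ k, c k l = 0
    ring

theorem ext_col (c : Fin m → Fin n → ℝ) (k : Fin (m + 1)) : ∑ l, ext c l k = 0 := by
  refine Fin.cases ?_ (fun k => ?_) k
  · rw [Fin.sum_univ_succ]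
    show (∑ k, ∑ l, c k l) + ∑ l, (-∑ k, c k l) = 0
    rw [sum_neg_distrib, sum_comm]
    ring
  · rw [Fin.sum_univ_succ]
    show (-∑ l, c k l) + ∑ l, c k l = 0
    ring

theorem ext_sum (c : Fin m → Fin n → ℝ) (p : Fin (n + 1) → Fin (m + 1) → ℝ) :
    ∑ l, ∑ k, ext c l k * p l k = ∑ k : Fin m, ∑ l : Fin n,
      c k l * ((p l.succ k.succ - p l.succ 0) - (p 0 k.succ - p 0 0)) := by
  rw [Fin.sum_univ_succ]
  simp only [Fin.sum_univ_succ (n := m)]
  show (∑ k, ∑ l, c k l) * p 0 0 + ∑ k : Fin m, (-∑ l, c k l) * p 0 k.succ +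
    ∑ l : Fin n, ((-∑ k, c k l) * p l.succ 0 + ∑ k : Fin m, c k l * p l.succ k.succ) = _
  have e1 : ∑ l : Fin n, ((-∑ k, c k l) * p l.succ 0 + ∑ k : Fin m, c k l * p l.succ k.succ) =
      ∑ k : Fin m, ∑ l : Fin n, (-(c k l) * p l.succ 0 + c k l * p l.succ k.succ) := by
    rw [sum_comm]
    refine sum_congr rfl fun l _ => ?_
    rw [sum_add_distrib, ← sum_mul, sum_neg_distrib]
  rw [e1, sum_mul, ← sum_add_distrib, ← sum_add_distrib]
  refine sum_congr rfl fun k _ => ?_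
  rw [← sum_neg_distrib, sum_mul, sum_mul, ← sum_add_distrib, ← sum_add_distrib]
  refine sum_congr rfl fun l _ => ?_
  ring

theorem independent {R R' : ℝ} (hDa : 0 < Da) (hDb : 0 < Db) (ha : Good (nrm σ Da a) R)
    (hb : Good (nrm σ Db b) R') (hN : 1 ≤ ‖σ N‖ * Da ^ (m + 1) * Db ^ (n + 1) * R * R') :
    IndependentRegulators σ N a b := by
  intro c hc
  have hR := ha.pos
  have hR' := hb.pos
  have hDa0 : (Da : ℂ) ≠ 0 := by exact_mod_cast hDa.ne'
  have hDb0 : (Db : ℂ) ≠ 0 := by exact_mod_cast hDb.ne'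
  have hN0 : σ N ≠ 0 := by
    intro h0
    rw [h0, norm_zero, zero_mul, zero_mul, zero_mul, zero_mul] at hN
    linarith
  set N' : ℂ := σ N * (Da : ℂ) ^ (m + 1) * (Db : ℂ) ^ (n + 1) with hN'
  have hN'0 : N' ≠ 0 := mul_ne_zero (mul_ne_zero hN0 (pow_ne_zero _ hDa0)) (pow_ne_zero _ hDb0)
  have hN'n : ‖N'‖ = ‖σ N‖ * Da ^ (m + 1) * Db ^ (n + 1) := by
    rw [hN', norm_mul, norm_mul, norm_pow, norm_pow, Complex.norm_real, Complex.norm_real,
      Real.norm_of_nonneg hDa.le, Real.norm_of_nonneg hDb.le]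
  have hN'pos : 0 < ‖N'‖ := norm_pos_iff.2 hN'0
  obtain ⟨v1, v2, v3, v4⟩ := inv_loop hN'0 hR'
  have hρR : (‖N'‖ * R')⁻¹ ≤ R := by
    rw [inv_le_comm₀ (by positivity) hR, ← one_div, div_le_iff₀ hR, hN'n]
    linarith
  choose Y hY using fun l => hb.loop (contDiff_circ R') (circ_add_one R')
    (norm_circ hR'.le) (ω := 2 * π) (fun s => by
      have h1 := hasDerivAt_circ R' s
      refine h1.congr_deriv ?_
      push_cast
      ring) hR' le_rfl (abs_of_pos (by positivity)).le l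
  choose X hX using fun k => ha.loop v1 v2 v3 v4 (by positivity) hρR
    (by rw [abs_neg, abs_of_pos (by positivity)]) k
  have hcd : ∀ k l, ContDiff ℝ 2 fun θ : Fin 1 → ℝ =>
      ((Da * X k (θ 0), Db * Y l (θ 0)) : ℂ × ℂ) := fun k l =>
    (contDiff_const.mul ((hX k).smooth.comp (contDiff_apply ℝ ℝ 0))).prodMk
      (contDiff_const.mul ((hY l).smooth.comp (contDiff_apply ℝ ℝ 0)))
  have hper : ∀ k l (θ : Fin 1 → ℝ) i, (((Da : ℂ) * X k ((θ + Pi.single i 1 : Fin 1 → ℝ) 0),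
      (Db : ℂ) * Y l ((θ + Pi.single i 1 : Fin 1 → ℝ) 0)) : ℂ × ℂ) =
        (Da * X k (θ 0), Db * Y l (θ 0)) := by
    intro k l θ i
    have h0 : (θ + Pi.single i 1 : Fin 1 → ℝ) 0 = θ 0 + 1 := by
      rw [Pi.add_apply, Subsingleton.elim i 0, Pi.single_eq_same]
    rw [h0, (hX k).per, (hY l).per]
  have hPt : ∀ k l (θ : Fin 1 → ℝ),
      Pt (grid a b) σ N (Da * X k (θ 0), Db * Y l (θ 0)) := by
    intro k l θ
    refine mem_Pt ?_
    show σ N * ((∏ l', (Db * Y l (θ 0) - σ (b l'))) * ∏ k', (Da * X k (θ 0) - σ (a k'))) = 1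
    rw [prod_nrm (a := a) hDa, prod_nrm (a := b) hDb, mul_div_cancel_left₀ _ hDa0,
      mul_div_cancel_left₀ _ hDb0, (hX k).prod, (hY l).prod]
    have h2 := (nz_circ hR').ne_zero (θ 0)
    have h3 : N' * circ R' (θ 0) * (N' * circ R' (θ 0))⁻¹ = 1 :=
      mul_inv_cancel₀ (mul_ne_zero hN'0 h2)
    calc σ N * ((Db : ℂ) ^ (n + 1) * circ R' (θ 0) *
          ((Da : ℂ) ^ (m + 1) * (N' * circ R' (θ 0))⁻¹)) =
          N' * circ R' (θ 0) * (N' * circ R' (θ 0))⁻¹ := by rw [hN']; ring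
      _ = 1 := h3
  have key : ext c = 0 := by
    refine core_zero (a := nrm σ Db b) (b := nrm σ Da a) (X := fun l _ => Y l)
      (Y := fun _ k => X k) (fun l _ => hY l) (fun _ k => hX k) hb ha (ext c)
      (ext_row c) (ext_col c) fun l k => ?_
    have h1 := hc (mkT _ (hcd k l) (hper k l) (hPt k l)) (fun θ x => ?_)
    · simp only [reg_ent hDa hDb (hcd k l) (hper k l) (hPt k l) (fun k' => (hX k).nz k')
        (fun l' => (hY l).nz l')] at h1
      rw [ext_sum c]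
      exact h1
    · refine (evO_toO (hPt k l θ) _).trans ?_
      rw [evP_C, Polynomial.eval₂_C]
  intro k l
  exact congrFun (congrFun key l.succ) k.succ

end reg

end Pool.Agent.J4H54.K2
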