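import Pool.Agent.J4H54.K2.Real
set_option autoImplicit false

/-!
The branches of the inverse function of `∏ (x - a_k)` near its roots.
-/

namespace Pool.Agent.J4H54.K2

open Pool.Agent.TH826.UH (outer Sepd)

open Polynomial Metric

variable {m : ℕ} {a : Fin (m + 1) → ℂ} {R : ℝ}

/-- the polynomial -/
noncomputable def fpol (a : Fin (m + 1) → ℂ) : ℂ[X] := ∏ k, (X - C (a k))

theorem eval_fpol (a : Fin (m + 1) → ℂ) (x : ℂ) : (fpol a).eval x = ∏ k, (x - a k) := by
  unfold fpol
  rw [eval_prod]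
  simp

theorem fpol_monic (a : Fin (m + 1) → ℂ) : (fpol a).Monic :=
  monic_prod_of_monic _ _ fun _ _ => monic_X_sub_C _

theorem fpol_natDegree (a : Fin (m + 1) → ℂ) : (fpol a).natDegree = m + 1 := by
  unfold fpol
  rw [natDegree_prod_of_monic _ _ fun _ _ => monic_X_sub_C _]
  simp

/-- the scaling factor -/
noncomputable def scl (R : ℝ) : ℂ := ((3 / (2 * R) : ℝ) : ℂ)

theorem scl_ne (hR : 0 < R) : scl R ≠ 0 := by
  unfold scl
  exact_mod_cast (by positivity : (3 / (2 * R) : ℝ) ≠ 0)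

theorem norm_scl (hR : 0 < R) : ‖scl R‖ = 3 / (2 * R) := by
  unfold scl
  rw [Complex.norm_real, Real.norm_of_nonneg (by positivity)]

theorem scl_lt (hR : 0 < R) {w : ℂ} (hw : ‖w‖ < 3 / 2 * R) : ‖scl R * w‖ < 2 + 1 / 4 := by
  rw [norm_mul, norm_scl hR]
  have h1 : 3 / (2 * R) * ‖w‖ < 3 / (2 * R) * (3 / 2 * R) :=
    mul_lt_mul_of_pos_left hw (by positivity)
  have h2 : 3 / (2 * R) * (3 / 2 * R) = 2 + 1 / 4 := by
    field_simp
    norm_num
  linarith

theorem Good.sepd (h : Good a R) : Sepd (C (scl R) * fpol a) a (1 / 4) (1 / 4) where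
  deg := by rw [natDegree_C_mul (scl_ne h.pos), fpol_natDegree]
  npos := Nat.succ_pos m
  pos := by norm_num
  sep i j hij := by linarith [h.sep i j hij]
  val j := by
    rw [eval_mul, eval_C, eval_fpol, Finset.prod_eq_zero (Finset.mem_univ j) (sub_self _),
      mul_zero, norm_zero]
    norm_num
  eta := by norm_num
  out x hx := by
    have h1 := h.out x hx
    have hR := h.pos
    rw [eval_mul, eval_C, eval_fpol, norm_mul, norm_prod, norm_scl hR]
    have h3 : 3 / (2 * R) * (3 / 2 * R) ≤ 3 / (2 * R) * ∏ i, ‖x - a i‖ :=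
      mul_le_mul_of_nonneg_left h1 (by positivity)
    have h2 : 3 / (2 * R) * (3 / 2 * R) = 2 + 1 / 4 := by
      field_simp
      norm_num
    linarith

theorem Good.exists_branch (h : Good a R) : ∃ U : Fin (m + 1) → ℂ → ℂ,
    ∀ j, ∀ w : ℂ, ‖w‖ < 3 / 2 * R → AnalyticAt ℂ (U j) w ∧ ‖U j w - a j‖ < 1 / 4 ∧
      ∏ k, (U j w - a k) = w := by
  obtain ⟨x, han, hd, hprod, -⟩ := h.sepd.exists_branches
  refine ⟨fun j w => x j (scl R * w), fun j w hw => ?_⟩
  have hu : scl R * w ∈ ball (0 : ℂ) (2 + 1 / 4) := by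
    rw [mem_ball_zero_iff]
    exact scl_lt h.pos hw
  refine ⟨?_, hd j _ hu, ?_⟩
  · exact AnalyticAt.comp (f := fun w => scl R * w) (han j _ hu)
      (analyticAt_const.mul analyticAt_id)
  · have h1 := congrArg (fun p => p.eval (x j (scl R * w))) (hprod _ hu)
    simp only [eval_sub, eval_C, eval_mul, eval_prod, eval_X] at h1
    rw [Finset.prod_eq_zero (Finset.mem_univ j) (sub_self _), mul_zero, eval_fpol] at h1
    have h2 : scl R * (∏ k, (x j (scl R * w) - a k) - w) = 0 := by linear_combination h1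
    exact sub_eq_zero.1 ((mul_eq_zero.1 h2).resolve_left (scl_ne h.pos))

/-- There are no critical points with small value. -/
theorem Good.crit (h : Good a R) {x : ℂ} (hx : ‖∏ k, (x - a k)‖ < 3 / 2 * R) :
    (derivative (fpol a)).eval x ≠ 0 := by
  obtain ⟨y, -, -, hprod, hder⟩ := h.sepd.exists_branches
  have hu : scl R * ∏ k, (x - a k) ∈ ball (0 : ℂ) (2 + 1 / 4) := by
    rw [mem_ball_zero_iff]
    exact scl_lt h.pos hx
  have h1 := congrArg (fun p => p.eval x) (hprod _ hu)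
  simp only [eval_sub, eval_C, eval_mul, eval_prod, eval_X] at h1
  rw [eval_fpol, sub_self] at h1
  have h12 : (C (scl R) * fpol a).leadingCoeff ≠ 0 := by
    rw [leadingCoeff_mul, leadingCoeff_C, (fpol_monic a).leadingCoeff, mul_one]
    exact scl_ne h.pos
  obtain ⟨j, -, hj⟩ := Finset.prod_eq_zero_iff.1 ((mul_eq_zero.1 h1.symm).resolve_left h12)
  have h3 := hder j _ hu
  rw [← sub_eq_zero.1 hj, derivative_C_mul, eval_mul, eval_C] at h3
  exact right_ne_zero_of_mul h3

end Pool.Agent.J4H54.K2
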