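import Pool.Agent.J4H54.K2.Loop
set_option autoImplicit false

/-!
The regulators on the loops: the leading part is `log |N|` and a graph Laplacian, the error is
small; independence.
-/

namespace Pool.Agent.J4H54.K2

open Pool.Agent.TH826.UH (pr NZ cont_int pr_prod)

open MeasureTheory Finset

open scoped Real

theorem pr_swap (G H : ℝ → ℂ) : pr G H = -pr H G := by
  unfold pr
  rw [← intervalIntegral.integral_neg]
  refine intervalIntegral.integral_congr fun s _ => ?_
  ring

theorem pr_prod_left {ι : Type*} [DecidableEq ι] (t : Finset ι) {H : ℝ → ℂ} (hH : NZ H)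
    {G : ι → ℝ → ℂ} (hG : ∀ j, NZ (G j)) :
    pr (fun s => ∏ j ∈ t, G j s) H = ∑ j ∈ t, pr (G j) H := by
  rw [pr_swap, pr_prod t hH hG, ← sum_neg_distrib]
  exact sum_congr rfl fun j _ => (pr_swap _ _).symm

/-- the rearrangement -/
theorem rearrange {ι κ : Type*} [Fintype ι] [Fintype κ] [DecidableEq ι] [DecidableEq κ]
    (p c : ι → κ → ℝ) (i : ι) (j : κ) :
    ∑ k, ∑ l, c k l * p k l = c i j * (∑ k, ∑ l, p k l) +
      ∑ l ∈ univ.erase j, (c i l - c i j) * (∑ k, p k l) +
      ∑ k ∈ univ.erase i, (c k j - c i j) * (∑ l, p k l) +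
      ∑ k ∈ univ.erase i, ∑ l ∈ univ.erase j, (c k l - c i l - c k j + c i j) * p k l := by
  have e1 : ∑ l ∈ univ.erase j, (c i l - c i j) * (∑ k, p k l) =
      ∑ l, (c i l - c i j) * (∑ k, p k l) := sum_erase _ (by simp)
  have e2 : ∑ k ∈ univ.erase i, (c k j - c i j) * (∑ l, p k l) =
      ∑ k, (c k j - c i j) * (∑ l, p k l) := sum_erase _ (by simp)
  have e3 : ∑ k ∈ univ.erase i, ∑ l ∈ univ.erase j, (c k l - c i l - c k j + c i j) * p k l =
      ∑ k, ∑ l, (c k l - c i l - c k j + c i j) * p k l := by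
    have e4 : ∀ k, ∑ l ∈ univ.erase j, (c k l - c i l - c k j + c i j) * p k l =
        ∑ l, (c k l - c i l - c k j + c i j) * p k l := fun k => sum_erase _ (by ring)
    simp only [e4]
    refine sum_erase _ (sum_eq_zero fun l _ => by ring)
  rw [e1, e2, e3]
  have e5 : ∑ l, (c i l - c i j) * (∑ k, p k l) = ∑ k, ∑ l, (c i l - c i j) * p k l := by
    rw [sum_comm]
    exact sum_congr rfl fun l _ => mul_sum _ _ _
  rw [e5, mul_sum, ← sum_add_distrib, ← sum_add_distrib, ← sum_add_distrib]
  refine sum_congr rfl fun k _ => ?_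
  rw [mul_sum, mul_sum, ← sum_add_distrib, ← sum_add_distrib, ← sum_add_distrib]
  refine sum_congr rfl fun l _ => ?_
  ring

variable {m n : ℕ} {a : Fin (m + 1) → ℂ} {b : Fin (n + 1) → ℂ} {i : Fin (m + 1)}
  {j : Fin (n + 1)} {X W Y V : ℝ → ℂ} {ρ ρ' R R' : ℝ}

theorem core_pos (h : LP a R i X W ρ (2 * π)) (h' : LP b R' j Y V ρ' (-(2 * π))) (ha : Good a R)
    (hb : Good b R') (c : Fin (m + 1) → Fin (n + 1) → ℝ) {M : ℝ} (hM : 0 < M)
    (hc : ∀ k l, |c k l| ≤ M) (hij : c i j = M) (hc1 : ∀ k, ∑ l, c k l = 0)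
    (hc2 : ∀ l, ∑ k, c k l = 0) :
    0 < ∑ k, ∑ l, c k l * pr (fun s => X s - a k) (fun s => Y s - b l) := by
  set p : Fin (m + 1) → Fin (n + 1) → ℝ := fun k l =>
    pr (fun s => X s - a k) (fun s => Y s - b l) with hp
  have hW : ∀ l, ∑ k, p k l = pr W (fun s => Y s - b l) := by
    intro l
    rw [← pr_prod_left univ (h'.nz l) (fun k => h.nz k)]
    congr 1
    funext s
    exact h.prod s
  have hV : ∀ k, ∑ l, p k l = pr (fun s => X s - a k) V := by
    intro k
    rw [← pr_prod univ (h.nz k) (fun l => h'.nz l)]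
    congr 1
    funext s
    exact h'.prod s
  have hWV : ∑ k, ∑ l, p k l = pr W V := by
    simp only [hV]
    rw [← pr_prod_left univ h'.nzW (fun k => h.nz k)]
    congr 1
    funext s
    exact h.prod s
  have e := rearrange p c i j
  have e0 : ∑ k, ∑ l, c k l * pr (fun s => X s - a k) (fun s => Y s - b l) =
      ∑ k, ∑ l, c k l * p k l := rfl
  rw [e0, e, hWV]
  simp only [hW, hV]
  have hpi := Real.pi_pos
  have hcl : ∀ k l, c k l ≤ M := fun k l => (abs_le.1 (hc k l)).2
  have hcg : ∀ k l, -M ≤ c k l := fun k l => (abs_le.1 (hc k l)).1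
  have hA0 : ∀ k ∈ univ.erase i, 0 ≤ alp a i k := fun k hk =>
    ha.alp_nonneg (ne_of_mem_erase hk).symm
  have hB0 : ∀ l ∈ univ.erase j, 0 ≤ alp b j l := fun l hl =>
    hb.alp_nonneg (ne_of_mem_erase hl).symm
  set A : ℝ := ∑ k ∈ univ.erase i, alp a i k with hA
  set B : ℝ := ∑ l ∈ univ.erase j, alp b j l with hB
  have hAnn : 0 ≤ A := sum_nonneg hA0
  have hBnn : 0 ≤ B := sum_nonneg hB0
  have hA1 : A ≤ 3 / 8 := ha.sum_alp
  have hB1 : B ≤ 3 / 8 := hb.sum_alp
  -- the Laplacians
  have lapB : M * Real.log (8 * R') ≤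
      ∑ l ∈ univ.erase j, (c i j - c i l) * Real.log ‖b j - b l‖ := by
    refine hb.lap j (fun l => c i j - c i l) M hM.le (fun l => ?_) (fun l => ?_) (sub_self _) ?_
    · rw [hij]; linarith [hcl i l]
    · rw [hij]; linarith [hcg i l]
    · rw [sum_sub_distrib, hc1 i, sub_zero, sum_const, card_univ, Fintype.card_fin,
        nsmul_eq_mul, hij]
      push_cast
      ring
  have lapA : M * Real.log (8 * R) ≤
      ∑ k ∈ univ.erase i, (c i j - c k j) * Real.log ‖a i - a k‖ := by
    refine ha.lap i (fun k => c i j - c k j) M hM.le (fun k => ?_) (fun k => ?_) (sub_self _) ?_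
    · rw [hij]; linarith [hcl k j]
    · rw [hij]; linarith [hcg k j]
    · rw [sum_sub_distrib, hc2 j, sub_zero, sum_const, card_univ, Fintype.card_fin,
        nsmul_eq_mul, hij]
      push_cast
      ring
  -- the four terms
  have t1 : c i j * pr W V = M * (2 * π * -(Real.log ρ + Real.log ρ')) := by
    rw [hij, pr_WV h h']
    ring
  have t2 : 2 * π * (M * Real.log (8 * R')) - 4 * π * M * B ≤
      ∑ l ∈ univ.erase j, (c i l - c i j) * pr W (fun s => Y s - b l) := by
    have h0 : 2 * π * (∑ l ∈ univ.erase j, (c i j - c i l) * Real.log ‖b j - b l‖) -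
        4 * π * M * B ≤ ∑ l ∈ univ.erase j, (c i l - c i j) * pr W (fun s => Y s - b l) := by
      rw [hB, mul_sum, mul_sum, ← sum_sub_distrib]
      refine sum_le_sum fun l hl => ?_
      have h1 := pr_WH h h' hb (ne_of_mem_erase hl).symm
      have h2 := hB0 l hl
      have h3 : c i l - c i j ≤ 0 := by rw [hij]; linarith [hcl i l]
      have h4 : -(2 * M) ≤ c i l - c i j := by rw [hij]; linarith [hcg i l]
      have h5 : (c i l - c i j) * (-(2 * π * (Real.log ‖b j - b l‖ - alp b j l))) ≤
          (c i l - c i j) * pr W (fun s => Y s - b l) := mul_le_mul_of_nonpos_left h1 h3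
      have h6 : 0 ≤ 2 * π * alp b j l := by positivity
      have h7 : -(2 * M) * (2 * π * alp b j l) ≤ (c i l - c i j) * (2 * π * alp b j l) :=
        mul_le_mul_of_nonneg_right h4 h6
      have h8 : 2 * π * ((c i j - c i l) * Real.log ‖b j - b l‖) - 4 * π * M * alp b j l =
          2 * π * ((c i j - c i l) * Real.log ‖b j - b l‖) + -(2 * M) * (2 * π * alp b j l) := by
        ring
      have h9 : (c i l - c i j) * (-(2 * π * (Real.log ‖b j - b l‖ - alp b j l))) =
          2 * π * ((c i j - c i l) * Real.log ‖b j - b l‖) +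
            (c i l - c i j) * (2 * π * alp b j l) := by ring
      rw [h8]
      rw [h9] at h5
      linarith
    refine le_trans ?_ h0
    have h1 := mul_le_mul_of_nonneg_left lapB (by positivity : 0 ≤ 2 * π)
    linarith
  have t3 : 2 * π * (M * Real.log (8 * R)) - 4 * π * M * A ≤
      ∑ k ∈ univ.erase i, (c k j - c i j) * pr (fun s => X s - a k) V := by
    have h0 : 2 * π * (∑ k ∈ univ.erase i, (c i j - c k j) * Real.log ‖a i - a k‖) -
        4 * π * M * A ≤ ∑ k ∈ univ.erase i, (c k j - c i j) * pr (fun s => X s - a k) V := by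
      rw [hA, mul_sum, mul_sum, ← sum_sub_distrib]
      refine sum_le_sum fun k hk => ?_
      have h1 := pr_GV h h' ha (ne_of_mem_erase hk).symm
      have h2 := hA0 k hk
      have h3 : c k j - c i j ≤ 0 := by rw [hij]; linarith [hcl k j]
      have h4 : -(2 * M) ≤ c k j - c i j := by rw [hij]; linarith [hcg k j]
      have h5 : (c k j - c i j) * (-(2 * π * (Real.log ‖a i - a k‖ - alp a i k))) ≤
          (c k j - c i j) * pr (fun s => X s - a k) V := mul_le_mul_of_nonpos_left h1 h3
      have h6 : 0 ≤ 2 * π * alp a i k := by positivity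
      have h7 : -(2 * M) * (2 * π * alp a i k) ≤ (c k j - c i j) * (2 * π * alp a i k) :=
        mul_le_mul_of_nonneg_right h4 h6
      have h8 : 2 * π * ((c i j - c k j) * Real.log ‖a i - a k‖) - 4 * π * M * alp a i k =
          2 * π * ((c i j - c k j) * Real.log ‖a i - a k‖) + -(2 * M) * (2 * π * alp a i k) := by
        ring
      have h9 : (c k j - c i j) * (-(2 * π * (Real.log ‖a i - a k‖ - alp a i k))) =
          2 * π * ((c i j - c k j) * Real.log ‖a i - a k‖) +
            (c k j - c i j) * (2 * π * alp a i k) := by ring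
      rw [h8]
      rw [h9] at h5
      linarith
    refine le_trans ?_ h0
    have h1 := mul_le_mul_of_nonneg_left lapA (by positivity : 0 ≤ 2 * π)
    linarith
  have t4 : -(4 * M * (32 * π / 5) * (A * B)) ≤ ∑ k ∈ univ.erase i, ∑ l ∈ univ.erase j,
      (c k l - c i l - c k j + c i j) * p k l := by
    have e4 : 4 * M * (32 * π / 5) * (A * B) = ∑ k ∈ univ.erase i, ∑ l ∈ univ.erase j,
        4 * M * (32 * π / 5 * (alp a i k * alp b j l)) := by
      rw [hA, hB, sum_mul_sum, mul_sum]
      refine sum_congr rfl fun k _ => ?_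
      rw [mul_sum]
      refine sum_congr rfl fun l _ => ?_
      ring
    rw [e4, ← sum_neg_distrib]
    refine sum_le_sum fun k hk => ?_
    rw [← sum_neg_distrib]
    refine sum_le_sum fun l hl => ?_
    have h1 := pr_GH h h' ha hb (ne_of_mem_erase hk).symm (ne_of_mem_erase hl).symm
    have h2 : |c k l - c i l - c k j + c i j| ≤ 4 * M := by
      rw [abs_le]
      constructor <;> linarith [hcl k l, hcg k l, hcl i l, hcg i l, hcl k j, hcg k j, hcl i j,
        hcg i j]
    have h3 : |(c k l - c i l - c k j + c i j) * p k l| ≤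
        4 * M * (32 * π / 5 * (alp a i k * alp b j l)) := by
      rw [abs_mul]
      exact mul_le_mul h2 h1 (abs_nonneg _) (by linarith)
    exact (abs_le.1 h3).1
  have hAB : A * B ≤ 9 / 64 := by nlinarith
  have hlog : 4.1 < Real.log (8 * R) + Real.log (8 * R') - (Real.log ρ + Real.log ρ') := by
    have h1 : Real.log 8 = 3 * Real.log 2 := by
      rw [show (8 : ℝ) = 2 ^ 3 by norm_num, Real.log_pow]
      norm_num
    have h2 : Real.log (8 * R) = Real.log 8 + Real.log R :=
      Real.log_mul (by norm_num) ha.pos.ne'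
    have h3 : Real.log (8 * R') = Real.log 8 + Real.log R' :=
      Real.log_mul (by norm_num) hb.pos.ne'
    have h4 := Real.log_le_log h.ρpos h.ρle
    have h5 := Real.log_le_log h'.ρpos h'.ρle
    rw [h2, h3, h1]
    linarith [Real.log_two_gt_d9]
  have hπM : 0 < π * M := by positivity
  have u2 : 4 * π * M * B ≤ π * M * 1.5 := by nlinarith
  have u3 : 4 * π * M * A ≤ π * M * 1.5 := by nlinarith
  have u4 : 4 * M * (32 * π / 5) * (A * B) ≤ π * M * 3.6 := by nlinarith
  have u1 : π * M * 8.2 < M * (2 * π * -(Real.log ρ + Real.log ρ')) +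
      2 * π * (M * Real.log (8 * R')) + 2 * π * (M * Real.log (8 * R)) := by
    have e5 : M * (2 * π * -(Real.log ρ + Real.log ρ')) +
      2 * π * (M * Real.log (8 * R')) + 2 * π * (M * Real.log (8 * R)) = 2 * (π * M) *
        (Real.log (8 * R) + Real.log (8 * R') - (Real.log ρ + Real.log ρ')) := by ring
    rw [e5]
    have h6 := mul_lt_mul_of_pos_left hlog (by positivity : 0 < 2 * (π * M))
    linarith
  rw [t1]
  linarith

/-- Independence of the regulators: if all the sums vanish, the coefficients vanish. -/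
theorem core_zero {X : Fin (m + 1) → Fin (n + 1) → ℝ → ℂ} {Y : Fin (m + 1) → Fin (n + 1) → ℝ → ℂ}
    {W V : Fin (m + 1) → Fin (n + 1) → ℝ → ℂ} (h : ∀ i j, LP a R i (X i j) (W i j) ρ (2 * π))
    (h' : ∀ i j, LP b R' j (Y i j) (V i j) ρ' (-(2 * π))) (ha : Good a R) (hb : Good b R')
    (c : Fin (m + 1) → Fin (n + 1) → ℝ) (hc1 : ∀ k, ∑ l, c k l = 0) (hc2 : ∀ l, ∑ k, c k l = 0)
    (hc : ∀ i j, ∑ k, ∑ l, c k l * pr (fun s => X i j s - a k) (fun s => Y i j s - b l) = 0) :
    c = 0 := by
  obtain ⟨⟨i, j⟩, -, hmax⟩ := exists_max_image (univ : Finset (Fin (m + 1) × Fin (n + 1)))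
    (fun q => |c q.1 q.2|) ⟨(0, 0), mem_univ _⟩
  have hle : ∀ k l, |c k l| ≤ |c i j| := fun k l => hmax (k, l) (mem_univ _)
  by_cases h0 : c i j = 0
  · funext k l
    have h1 := hle k l
    rw [h0, abs_zero] at h1
    exact abs_eq_zero.1 (le_antisymm h1 (abs_nonneg _))
  · exfalso
    rcases lt_or_gt_of_ne h0 with hneg | hpos
    · have h1 := core_pos (h i j) (h' i j) ha hb (fun k l => -c k l) (M := |c i j|)
        (abs_pos.2 h0) (fun k l => by rw [abs_neg]; exact hle k l) (abs_of_neg hneg).symm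
        (fun k => by rw [sum_neg_distrib, hc1, neg_zero])
        (fun l => by rw [sum_neg_distrib, hc2, neg_zero])
      have h2 : ∑ k, ∑ l, -c k l * pr (fun s => X i j s - a k) (fun s => Y i j s - b l) =
          -∑ k, ∑ l, c k l * pr (fun s => X i j s - a k) (fun s => Y i j s - b l) := by
        rw [← sum_neg_distrib]
        refine sum_congr rfl fun k _ => ?_
        rw [← sum_neg_distrib]
        exact sum_congr rfl fun l _ => by ring
      rw [h2, hc i j, neg_zero] at h1
      exact lt_irrefl _ h1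
    · have h1 := core_pos (h i j) (h' i j) ha hb c (M := |c i j|)
        (abs_pos.2 h0) hle (abs_of_pos hpos).symm hc1 hc2
      rw [hc i j] at h1
      exact lt_irrefl _ h1

end Pool.Agent.J4H54.K2
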