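import Pool.Agent.J4H54.K2.Def
import Pool.Agent.J4H54.K2.Core
import Pool.Agent.Y797.GC.Gen
import Pool.Agent.Y797.GC.Unr
import Pool.Agent.Y797.GC.Dom
set_option autoImplicit false

/-!
The curves `N ∏ (x - a_k) ∏ (y - b_l) = 1`: points, smoothness, unramified symbols, loops.
-/

namespace Pool.Agent.J4H54.K2

open Pool.Agent.TH826.MK (KQ symb Torus Unramified circ norm_circ contDiff_circ hasDerivAt_circ
  circ_add_one)

open Pool.Agent.TH826.UH (pr NZ pr_div pairing_eq_pr nz_circ)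

open Pool.Agent.Y797.GC (Arr evP evP_ly evP_lx evP_C Pt mkT evO evO_toO)

open Finset

open scoped Real

variable {K : Type*} [Field K] {m n : ℕ} {a : Fin (m + 1) → K} {b : Fin (n + 1) → K} {N : K}
  {σ : K →+* ℂ}

section points

theorem ev_eqn (P : ℂ × ℂ) : evP σ P ((grid a b).eqn N) =
    σ N * ((∏ l, (P.2 - σ (b l))) * ∏ k, (P.1 - σ (a k))) - 1 := by
  rw [Arr.eqn_def, map_sub, map_one, map_mul, map_mul, map_mul, map_prod, map_prod, evP_C,
    Polynomial.eval₂_C]
  have h1 : (grid a b).g = 1 := rfl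
  have h2 : ∀ l, (grid a b).w l = 0 := fun _ => rfl
  have h3 : ∀ k, (grid a b).nu k = 1 := fun _ => rfl
  have h4 : ∀ l, (grid a b).phi l = Polynomial.C (b l) := fun _ => rfl
  have h5 : ∀ k, (grid a b).rho k = a k := fun _ => rfl
  simp only [h1, h2, h3, h4, h5, map_one, one_mul, zero_add, pow_one, evP_ly, evP_lx,
    Polynomial.eval₂_C]

theorem mem_Pt {P : ℂ × ℂ} (h : σ N * ((∏ l, (P.2 - σ (b l))) * ∏ k, (P.1 - σ (a k))) = 1) :
    Pt (grid a b) σ N P := by
  refine ⟨by rw [ev_eqn, h, sub_self], ?_⟩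
  unfold Arr.allX
  rw [map_prod]
  have h5 : ∀ k, evP σ P ((grid a b).lx k) = P.1 - σ (a k) := fun k => evP_lx _ _ _
  simp only [h5]
  intro h0
  rw [h0, mul_zero, mul_zero] at h
  exact zero_ne_one h

end points

section smooth

/-- the normalized configuration -/
noncomputable def nrm (σ : K →+* ℂ) (D : ℝ) (a : Fin (m + 1) → K) (k : Fin (m + 1)) : ℂ :=
  σ (a k) / D

variable {D : ℝ}

theorem conf_nrm (hD : 0 < D) (him : ∀ k, (σ (a k)).im = 0)
    (hsep : ∀ i k, i ≠ k → D ≤ ‖σ (a i) - σ (a k)‖) : Conf (nrm σ D a) where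
  im k := by
    unfold nrm
    rw [Complex.div_ofReal_im, him, zero_div]
  sep i k hik := by
    unfold nrm
    rw [← sub_div, norm_div, Complex.norm_real, Real.norm_of_nonneg hD.le, one_le_div hD]
    exact hsep i k hik

theorem sub_nrm (hD : 0 < D) (x : ℂ) (k : Fin (m + 1)) :
    x - σ (a k) = D * (x / D - nrm σ D a k) := by
  have : (D : ℂ) ≠ 0 := by exact_mod_cast hD.ne'
  unfold nrm
  field_simp

theorem prod_nrm (hD : 0 < D) (x : ℂ) :
    ∏ k, (x - σ (a k)) = (D : ℂ) ^ (m + 1) * ∏ k, (x / D - nrm σ D a k) := by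
  simp only [sub_nrm hD]
  rw [prod_mul_distrib, prod_const, card_univ, Fintype.card_fin]

/-- the derivative of the product does not vanish at the points of small value -/
theorem deriv_ne {R : ℝ} (hD : 0 < D) (hg : Good (nrm σ D a) R) {x c : ℂ} (hc : c ≠ 0)
    (hx : ‖∏ k, (x / D - nrm σ D a k)‖ < 3 / 2 * R) :
    deriv (fun t => c * ∏ k, (t - σ (a k)) - 1) x ≠ 0 := by
  have hD0 : (D : ℂ) ≠ 0 := by exact_mod_cast hD.ne'
  have h1 := hg.crit hx
  have e : (fun t : ℂ => c * ∏ k, (t - σ (a k)) - 1) = fun t : ℂ =>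
      c * (D : ℂ) ^ (m + 1) * (fpol (nrm σ D a)).eval (t / (D : ℂ)) - 1 := by
    funext t
    rw [prod_nrm hD, eval_fpol]
    ring
  have h2 : HasDerivAt (fun t : ℂ => t / (D : ℂ)) (1 / (D : ℂ)) x :=
    (hasDerivAt_id x).div_const _
  have h3 : HasDerivAt (fun t : ℂ => (fpol (nrm σ D a)).eval (t / (D : ℂ)))
      ((Polynomial.derivative (fpol (nrm σ D a))).eval (x / (D : ℂ)) * (1 / (D : ℂ))) x :=
    HasDerivAt.comp (h₂ := fun t => (fpol (nrm σ D a)).eval t) x
      ((fpol (nrm σ D a)).hasDerivAt (x / (D : ℂ))) h2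
  rw [e, ((h3.const_mul (c * (D : ℂ) ^ (m + 1))).sub_const 1).deriv]
  exact mul_ne_zero (mul_ne_zero hc (pow_ne_zero _ hD0)) (mul_ne_zero h1 (one_div_ne_zero hD0))

end smooth

section main

variable {Da Db R R' : ℝ}

theorem smooth (hDa : 0 < Da) (hDb : 0 < Db) (ha : Good (nrm σ Da a) R)
    (hb : Good (nrm σ Db b) R') (hN : 1 ≤ ‖σ N‖ * Da ^ (m + 1) * Db ^ (n + 1) * R * R') :
    (grid a b).Smooth N σ := by
  intro x y hxy
  have hval : ∀ x y, (grid a b).val N σ x y =
      σ N * ((∏ l, (y - σ (b l))) * ∏ k, (x - σ (a k))) - 1 := fun x y => ev_eqn (x, y)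
  rw [hval] at hxy
  simp only [hval]
  have hRa := ha.pos
  have hRb := hb.pos
  rw [sub_eq_zero] at hxy
  have hne : σ N * ((∏ l, (y - σ (b l))) * ∏ k, (x - σ (a k))) ≠ 0 := by
    rw [hxy]; exact one_ne_zero
  have hN0 : σ N ≠ 0 := left_ne_zero_of_mul hne
  have hB0 : ∏ l, (y - σ (b l)) ≠ 0 := left_ne_zero_of_mul (right_ne_zero_of_mul hne)
  have hA0 : ∏ k, (x - σ (a k)) ≠ 0 := right_ne_zero_of_mul (right_ne_zero_of_mul hne)
  have h1 := congrArg norm hxy
  rw [norm_one, norm_mul, norm_mul, prod_nrm (a := a) hDa, prod_nrm (a := b) hDb, norm_mul, norm_mul, norm_pow,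
    norm_pow, Complex.norm_real, Complex.norm_real, Real.norm_of_nonneg hDa.le,
    Real.norm_of_nonneg hDb.le] at h1
  set F := ‖∏ k, (x / Da - nrm σ Da a k)‖ with hF
  set G := ‖∏ l, (y / Db - nrm σ Db b l)‖ with hG
  set Q := ‖σ N‖ * Da ^ (m + 1) * Db ^ (n + 1) with hQ
  have hQ0 : 0 < Q := by
    have := norm_pos_iff.2 hN0
    positivity
  have h2 : Q * (F * G) = 1 := by
    rw [← h1, hQ]
    ring
  by_cases hx : F < 3 / 2 * R
  · left
    have e : (fun t => σ N * ((∏ l, (y - σ (b l))) * ∏ k, (t - σ (a k))) - 1) = fun t =>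
        (σ N * ∏ l, (y - σ (b l))) * ∏ k, (t - σ (a k)) - 1 := by
      funext t
      ring
    rw [e]
    exact deriv_ne hDa ha (mul_ne_zero hN0 hB0) hx
  · right
    rw [not_lt] at hx
    have hy : G < 3 / 2 * R' := by
      by_contra hcon
      rw [not_lt] at hcon
      have h3 : 3 / 2 * R * (3 / 2 * R') ≤ F * G :=
        mul_le_mul hx hcon (by positivity) (by positivity)
      have h4 : Q * (3 / 2 * R * (3 / 2 * R')) ≤ Q * (F * G) :=
        mul_le_mul_of_nonneg_left h3 hQ0.le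
      have h5 : Q * (3 / 2 * R * (3 / 2 * R')) = 9 / 4 * (Q * R * R') := by ring
      rw [h5, h2] at h4
      linarith
    have e : (fun t => σ N * ((∏ l, (t - σ (b l))) * ∏ k, (x - σ (a k))) - 1) = fun t =>
        (σ N * ∏ k, (x - σ (a k))) * ∏ l, (t - σ (b l)) - 1 := by
      funext t
      ring
    rw [e]
    exact deriv_ne hDb hb (mul_ne_zero hN0 hA0) hy

theorem isDomain (hN : N ≠ 0) (ha : Function.Injective a) :
    IsDomain ((grid a b).CRing N) ∧ IsDomain ((grid a b).Open N) :=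
  Pool.Agent.Y797.GC.isDomain_of_irreducible _ rfl hN
    (Pool.Agent.Y797.GC.irreducible_a (grid a b) rfl hN ha (k0 := 0) rfl)

theorem smoothInf (hN : N ≠ 0) (ha : Function.Injective a) (hb : Function.Injective b) :
    (grid a b).SmoothInf N σ 0 := by
  refine Pool.Agent.Y797.GC.smoothInf (grid a b) σ hN (fun _ => le_rfl) ha (fun i j hij => ?_) ?_
  · show (Polynomial.C (b i)).coeff 0 ≠ (Polynomial.C (b j)).coeff 0
    rw [Polynomial.coeff_C_zero, Polynomial.coeff_C_zero]
    exact hb.ne hij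
  · show 0 < (n + 1) * 0 + ∑ _k : Fin (m + 1), 1
    simp

end main

section unr

theorem unramified.{u, v} {K : Type u} [Field K] {m n : ℕ} {N : K} {a : Fin (m + 1) → K}
    {b : Fin (n + 1) → K} (hN : IsIntegral ℤ N) (ha : ∀ k, IsIntegral ℤ (a k))
    (hb : ∀ l, IsIntegral ℤ (b l)) : UnramifiedSymbols.{u, v} N a b := by
  intro L _ f k l
  classical
  set u : Fin (n + 1) → ℚ := Pi.single l.succ 1 - Pi.single 0 1 with hu
  set v : Fin (m + 1) → ℚ := Pi.single k.succ 1 - Pi.single 0 1 with hv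
  have hu0 : ∑ i, u i = 0 := by
    rw [hu]
    simp
  have hv0 : ∑ i, v i = 0 := by
    rw [hv]
    simp
  set nn : Fin (n + 1) → Fin (m + 1) → ℚ := fun i j => u i * v j with hnn
  have hadm : nn ∈ (grid a b).Adm := by
    refine ⟨fun i => ?_, fun j => ?_, fun j hj => ?_⟩
    · rw [hnn]
      simp only
      rw [← mul_sum, hv0, mul_zero]
    · rw [hnn]
      simp only
      rw [← sum_mul, hu0, zero_mul]
    · exact absurd hj one_ne_zero
  have hsum : ∀ {ι : Type} [Fintype ι] [DecidableEq ι] {V : Type u} [AddCommGroup V] [Module ℚ V]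
      (p q : ι) (t : ι → V), ∑ i, (Pi.single p 1 - Pi.single q 1 : ι → ℚ) i • t i =
        t p - t q := by
    intro ι _ _ V _ _ p q t
    simp [sub_smul, Finset.sum_sub_distrib, Pi.single_apply]
  have hcl : (grid a b).cl N nn = ent N a b k l := by
    unfold Arr.cl ent
    rw [← Pool.Agent.Y797.GC.symb_sub_left, ← Pool.Agent.Y797.GC.symb_sub_right,
      ← Pool.Agent.Y797.GC.symb_sub_right]
    have h1 : ∀ i, ∑ j, nn i j • symb ![(grid a b).uy N i, (grid a b).ux N j] =
        u i • (symb ![(grid a b).uy N i, (grid a b).ux N k.succ] -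
          symb ![(grid a b).uy N i, (grid a b).ux N 0]) := by
      intro i
      rw [← hsum k.succ 0 (fun j => symb ![(grid a b).uy N i, (grid a b).ux N j]), smul_sum]
      refine sum_congr rfl fun j _ => ?_
      rw [smul_smul]
    simp only [h1]
    exact hsum l.succ 0 _
  rw [← hcl]
  refine Pool.Agent.Y797.GC.cl_mem_unramified f (fun i j => ?_) ha (fun i j => ?_) hN hadm
  · show IsIntegral ℤ ((Polynomial.C (b i)).coeff j)
    rw [Polynomial.coeff_C]
    split_ifs
    · exact hb i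
    · exact isIntegral_zero
  · show IsIntegral ℤ (((1 : Polynomial (Polynomial K)).coeff i).coeff j)
    rw [Polynomial.coeff_one]
    split_ifs
    · rw [Polynomial.coeff_one]
      split_ifs
      · exact isIntegral_one
      · exact isIntegral_zero
    · rw [Polynomial.coeff_zero]
      exact isIntegral_zero

end unr

end Pool.Agent.J4H54.K2
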