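import Pool.Agent.Y797.GC.Def
set_option autoImplicit false

/-!
Definitions: the curves `N ∏ (x - a_k) ∏ (y - b_l) = 1`, and the symbols
`{(y - b_l) / (y - b_0), (x - a_k) / (x - a_0)}` on them.
-/

namespace Pool.Agent.J4H54.K2

open Pool.Agent.TH826.MK (KQ symb Torus Unramified)

open Pool.Agent.Y797.GC (Arr)

open Polynomial (C X)

variable {K : Type*} [Field K] {m n : ℕ}

/-- The arrangement of the `n + 1` lines `y = b_l` and the `m + 1` lines `x = a_k`, all with
multiplicity one. The curve `A.CRing N` of the arrangement is `N ∏_l (y - b_l) ∏_k (x - a_k) = 1`. -/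
noncomputable def grid (a : Fin (m + 1) → K) (b : Fin (n + 1) → K) : Arr K n (m + 1) where
  phi l := C (b l)
  w _ := 0
  rho := a
  nu _ := 1
  g := 1

/-- The symbol `{(y - b_{l+1}) / (y - b_0), (x - a_{k+1}) / (x - a_0)}` on the curve
`N ∏ (y - b_l) ∏ (x - a_k) = 1`. -/
noncomputable def ent (N : K) (a : Fin (m + 1) → K) (b : Fin (n + 1) → K) (k : Fin m)
    (l : Fin n) : KQ ((grid a b).Open N) 2 :=
  symb ![(grid a b).uy N l.succ / (grid a b).uy N 0, (grid a b).ux N k.succ / (grid a b).ux N 0]

/-- The symbols are unramified at all discrete valuations of all fields with a homomorphism from the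
coordinate ring, for example of the function field. -/
def UnramifiedSymbols.{u, v} {K : Type u} [Field K] {m n : ℕ} (N : K) (a : Fin (m + 1) → K)
    (b : Fin (n + 1) → K) : Prop :=
  ∀ (L : Type v) [Field L] (f : (grid a b).Open N →+* L) (k : Fin m) (l : Fin n),
    KQ.map 2 f (ent N a b k l) ∈ Unramified L 2

/-- The regulators of the `m n` symbols are linearly independent: no nontrivial real linear
combination of them vanishes on all loops in the complex points over `σ` of the curve. -/
def IndependentRegulators (σ : K →+* ℂ) (N : K) (a : Fin (m + 1) → K) (b : Fin (n + 1) → K) :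
    Prop :=
  ∀ c : Fin m → Fin n → ℝ,
    (∀ T : Torus ((grid a b).Open N) 1,
      (∀ θ x, T.e θ ((grid a b).toO N (C (C x))) = σ x) →
      ∑ k, ∑ l, c k l * T.reg (ent N a b k l) = 0) →
    ∀ k l, c k l = 0

/-- The conclusions for the curve `N ∏ (y - b_l) ∏ (x - a_k) = 1`: the coordinate rings of the curve
and of its part where no `x - a_k` vanishes (which is the whole curve) are domains; the curve is
smooth at its complex points over `σ`, and at the points at infinity of its closure in `ℙ¹ × ℙ¹`; the
`m n` symbols are unramified, and their regulators over `σ` are linearly independent. -/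
def Conclusions.{u, v} {K : Type u} [Field K] {m n : ℕ} (σ : K →+* ℂ) (N : K)
    (a : Fin (m + 1) → K) (b : Fin (n + 1) → K) : Prop :=
  IsDomain ((grid a b).CRing N) ∧ IsDomain ((grid a b).Open N) ∧ (grid a b).Smooth N σ ∧
    (grid a b).SmoothInf N σ 0 ∧ UnramifiedSymbols.{u, v} N a b ∧ IndependentRegulators σ N a b

end Pool.Agent.J4H54.K2
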