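import Pool.Agent.J4H54.K2.Ind
set_option autoImplicit false

/-!
The main theorems.
-/

namespace Pool.Agent.J4H54.K2

theorem main.{u, v} {K : Type u} [Field K] {m n : ℕ} (σ : K →+* ℂ) {N : K}
    {a : Fin (m + 1) → K} {b : Fin (n + 1) → K} (hN : IsIntegral ℤ N)
    (ha : ∀ k, IsIntegral ℤ (a k)) (hb : ∀ l, IsIntegral ℤ (b l)) {Da Db : ℝ} (hDa : 0 < Da)
    (hDb : 0 < Db) (ra : ∀ k, (σ (a k)).im = 0) (rb : ∀ l, (σ (b l)).im = 0)
    (sa : ∀ i k, i ≠ k → Da ≤ ‖σ (a i) - σ (a k)‖) (sb : ∀ j l, j ≠ l → Db ≤ ‖σ (b j) - σ (b l)‖)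
    (h : 64 ≤ ‖σ N‖ * Da ^ (m + 1) * Db ^ (n + 1) * 2 ^ (m - 3) * 2 ^ (n - 3)) :
    Conclusions.{u, v} σ N a b := by
  have ga := (conf_nrm hDa ra sa).good
  have gb := (conf_nrm hDb rb sb).good
  have h1 : 1 ≤ ‖σ N‖ * Da ^ (m + 1) * Db ^ (n + 1) * rad m * rad n := by
    have e : ‖σ N‖ * Da ^ (m + 1) * Db ^ (n + 1) * rad m * rad n =
        ‖σ N‖ * Da ^ (m + 1) * Db ^ (n + 1) * 2 ^ (m - 3) * 2 ^ (n - 3) / 64 := by
      unfold rad
      ring
    rw [e]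
    linarith
  have hN0 : N ≠ 0 := by
    rintro rfl
    rw [map_zero, norm_zero, zero_mul, zero_mul, zero_mul, zero_mul] at h
    linarith
  have ia : Function.Injective a := by
    intro i k hik
    by_contra hne
    have h2 := sa i k hne
    rw [hik, sub_self, norm_zero] at h2
    linarith
  have ib : Function.Injective b := by
    intro i k hik
    by_contra hne
    have h2 := sb i k hne
    rw [hik, sub_self, norm_zero] at h2
    linarith
  obtain ⟨d1, d2⟩ := isDomain (b := b) hN0 ia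
  exact ⟨d1, d2, smooth hDa hDb ga gb h1, smoothInf hN0 ia ib, unramified hN ha hb,
    independent hDa hDb ga gb h1⟩

theorem main_rat.{v} {m n : ℕ} {N : ℤ} {a : Fin (m + 1) → ℤ} {b : Fin (n + 1) → ℤ} {Da Db : ℕ}
    (hDa : 0 < Da) (hDb : 0 < Db) (sa : ∀ i k, i ≠ k → (Da : ℤ) ≤ |a i - a k|)
    (sb : ∀ j l, j ≠ l → (Db : ℤ) ≤ |b j - b l|)
    (h : 64 ≤ |N| * Da ^ (m + 1) * Db ^ (n + 1) * 2 ^ (m - 3) * 2 ^ (n - 3)) :
    Conclusions.{0, v} (algebraMap ℚ ℂ) (N : ℚ) (fun k => (a k : ℚ)) fun l => (b l : ℚ) := by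
  have hint : ∀ z : ℤ, IsIntegral ℤ (z : ℚ) := fun z => isIntegral_algebraMap (x := z)
  have hc : ∀ z : ℤ, algebraMap ℚ ℂ (z : ℚ) = ((z : ℝ) : ℂ) := fun z => by simp
  have hd : ∀ x y : ℤ, ‖algebraMap ℚ ℂ (x : ℚ) - algebraMap ℚ ℂ (y : ℚ)‖ =
      ((|x - y| : ℤ) : ℝ) := by
    intro x y
    rw [hc, hc, ← Complex.ofReal_sub, Complex.norm_real, Real.norm_eq_abs]
    push_cast
    rfl
  refine main (algebraMap ℚ ℂ) (hint N) (fun k => hint (a k)) (fun l => hint (b l))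
    (Da := Da) (Db := Db) (by exact_mod_cast hDa) (by exact_mod_cast hDb)
    (fun k => by rw [hc, Complex.ofReal_im]) (fun l => by rw [hc, Complex.ofReal_im])
    (fun i k hik => ?_) (fun j l hjl => ?_) ?_
  · rw [hd]
    exact_mod_cast sa i k hik
  · rw [hd]
    exact_mod_cast sb j l hjl
  · rw [hc, Complex.norm_real, Real.norm_eq_abs]
    exact_mod_cast h

end Pool.Agent.J4H54.K2
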