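import Pool.Agent.J4H54.K2.Br
import Pool.Agent.TH826.UH.Pair
set_option autoImplicit false

/-!
Loops near a root of `∏ (x - a_k)`: winding numbers, logarithms, and the regulator integrals.
-/

namespace Pool.Agent.J4H54.K2

open Pool.Agent.TH826.UH (pr NZ cont_int)

open MeasureTheory Finset

open scoped Real

variable {m : ℕ} {a : Fin (m + 1) → ℂ} {R : ℝ}

/-- a loop near the root `a i`, on which the product is `W` -/
structure LP (a : Fin (m + 1) → ℂ) (R : ℝ) (i : Fin (m + 1)) (X W : ℝ → ℂ) (ρ ω : ℝ) :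
    Prop where
  smooth : ContDiff ℝ 2 X
  per : ∀ s, X (s + 1) = X s
  near : ∀ s, ‖X s - a i‖ < 1 / 4
  prod : ∀ s, ∏ k, (X s - a k) = W s
  nW : ∀ s, ‖W s‖ = ρ
  dW : ∀ s, HasDerivAt W (ω * Complex.I * W s) s
  ρpos : 0 < ρ
  ρle : ρ ≤ R
  ωle : |ω| ≤ 2 * π

variable {i : Fin (m + 1)} {X W : ℝ → ℂ} {ρ ω : ℝ}

theorem LP.W_ne (h : LP a R i X W ρ ω) (s : ℝ) : W s ≠ 0 := by
  rw [← norm_pos_iff, h.nW]
  exact h.ρpos

theorem LP.ne (h : LP a R i X W ρ ω) (k : Fin (m + 1)) (s : ℝ) : X s - a k ≠ 0 := by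
  have h1 := h.W_ne s
  rw [← h.prod s, Finset.prod_ne_zero_iff] at h1
  exact h1 k (mem_univ k)

theorem LP.nz (h : LP a R i X W ρ ω) (k : Fin (m + 1)) : NZ fun s => X s - a k :=
  ⟨h.smooth.sub contDiff_const, h.ne k⟩

theorem LP.nzW (h : LP a R i X W ρ ω) : NZ W := by
  refine ⟨?_, h.W_ne⟩
  have e : W = fun s => ∏ k, (X s - a k) := funext fun s => (h.prod s).symm
  rw [e]
  exact contDiff_prod fun k _ => h.smooth.sub contDiff_const

theorem LP.ldW (h : LP a R i X W ρ ω) (s : ℝ) : (deriv W s / W s).im = ω := by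
  rw [(h.dW s).deriv, mul_div_cancel_right₀ _ (h.W_ne s)]
  simp

/-- the reciprocal distances -/
noncomputable def tk (a : Fin (m + 1) → ℂ) (i k : Fin (m + 1)) : ℝ := (‖a i - a k‖ - 1 / 4)⁻¹

/-- the bounds -/
noncomputable def alp (a : Fin (m + 1) → ℂ) (i k : Fin (m + 1)) : ℝ :=
  3 / 8 / (∑ l ∈ univ.erase i, tk a i l) * tk a i k

section conf

theorem Good.tk_pos (h : Good a R) {k : Fin (m + 1)} (hk : i ≠ k) : 0 < tk a i k := by
  have := h.sep i k hk
  exact inv_pos.2 (by linarith)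

theorem Good.sum_tk_pos (h : Good a R) {k : Fin (m + 1)} (hk : i ≠ k) :
    0 < ∑ l ∈ univ.erase i, tk a i l := by
  refine sum_pos' (fun l hl => (h.tk_pos (ne_of_mem_erase hl).symm).le)
    ⟨k, mem_erase.2 ⟨hk.symm, mem_univ k⟩, h.tk_pos hk⟩

theorem Good.sum_tk_nonneg (h : Good a R) : 0 ≤ ∑ l ∈ univ.erase i, tk a i l :=
  sum_nonneg fun _ hl => (h.tk_pos (ne_of_mem_erase hl).symm).le

theorem Good.alp_nonneg (h : Good a R) {k : Fin (m + 1)} (hk : i ≠ k) :
    0 ≤ alp a i k :=
  mul_nonneg (div_nonneg (by norm_num) h.sum_tk_nonneg) (h.tk_pos hk).le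

theorem Good.sum_alp (h : Good a R) : ∑ k ∈ univ.erase i, alp a i k ≤ 3 / 8 := by
  unfold alp
  rw [← mul_sum, div_mul_eq_mul_div]
  exact div_le_of_le_mul₀ h.sum_tk_nonneg (by norm_num) le_rfl

end conf

theorem LP.small (h : LP a R i X W ρ ω) (hc : Good a R) (s : ℝ) :
    ‖X s - a i‖ * ∑ k ∈ univ.erase i, tk a i k ≤ 3 / 8 := by
  have h1 : R * ∑ k ∈ univ.erase i, tk a i k ≤ _ := hc.recip i _ (h.near s).le
  have e : ∀ k, a i + (X s - a i) - a k = X s - a k := fun k => by ring
  simp only [e] at h1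
  have h2 : ‖X s - a i‖ * ∏ k ∈ univ.erase i, ‖X s - a k‖ = ρ := by
    rw [mul_prod_erase univ (fun k => ‖X s - a k‖) (mem_univ i), ← norm_prod, h.prod, h.nW]
  have h3 : R * (‖X s - a i‖ * ∑ k ∈ univ.erase i, tk a i k) ≤ R * (3 / 8) := by
    calc R * (‖X s - a i‖ * ∑ k ∈ univ.erase i, tk a i k) =
          ‖X s - a i‖ * (R * ∑ k ∈ univ.erase i, tk a i k) := by ring
      _ ≤ ‖X s - a i‖ * (3 / 8 * ∏ k ∈ univ.erase i, ‖X s - a k‖) :=
          mul_le_mul_of_nonneg_left h1 (norm_nonneg _)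
      _ = 3 / 8 * (‖X s - a i‖ * ∏ k ∈ univ.erase i, ‖X s - a k‖) := by ring
      _ = 3 / 8 * ρ := by rw [h2]
      _ ≤ R * (3 / 8) := by linarith [h.ρle]
  exact le_of_mul_le_mul_left h3 hc.pos

theorem LP.r_le (h : LP a R i X W ρ ω) (hc : Good a R) {k : Fin (m + 1)} (hk : i ≠ k) (s : ℝ) :
    ‖X s - a i‖ * tk a i k ≤ alp a i k := by
  unfold alp
  refine mul_le_mul_of_nonneg_right ?_ (hc.tk_pos hk).le
  rw [le_div_iff₀ (hc.sum_tk_pos hk)]
  exact h.small hc s

theorem LP.inv_le (h : LP a R i X W ρ ω) (hc : Good a R) {k : Fin (m + 1)} (hk : i ≠ k) (s : ℝ) :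
    ‖X s - a k‖⁻¹ ≤ tk a i k := by
  have h1 := hc.sep i k hk
  refine inv_anti₀ (by linarith) ?_
  have h2 := h.near s
  have h3 : ‖a i - a k‖ ≤ ‖X s - a k‖ + ‖X s - a i‖ := by
    have e : a i - a k = (X s - a k) - (X s - a i) := by ring
    rw [e]
    exact norm_sub_le _ _
  linarith

/-- the logarithmic derivative of the product -/
theorem LP.sum_ld (h : LP a R i X W ρ ω) (s : ℝ) :
    ∑ k, deriv X s / (X s - a k) = ω * Complex.I := by
  have hX : HasDerivAt X (deriv X s) s := (h.smooth.differentiable (by norm_num) s).hasDerivAt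
  have e : W = fun s => ∏ k, (X s - a k) := funext fun s => (h.prod s).symm
  have h1 : HasDerivAt (fun s => ∏ k, (X s - a k))
      (∑ k, (∏ l ∈ univ.erase k, (X s - a l)) • deriv X s) s :=
    HasDerivAt.fun_finsetProd fun k _ => hX.sub_const (a k)
  rw [← e] at h1
  have h2 := h1.unique (h.dW s)
  have h3 : ∀ k, (∏ l ∈ univ.erase k, (X s - a l)) • deriv X s =
      W s * (deriv X s / (X s - a k)) := by
    intro k
    rw [← h.prod s, ← mul_prod_erase univ (fun k => X s - a k) (mem_univ k), smul_eq_mul]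
    have := h.ne k s
    field_simp
  simp only [h3] at h2
  rw [← mul_sum, mul_comm (_ * _)] at h2
  exact mul_left_cancel₀ (h.W_ne s) h2

theorem LP.deriv_le (h : LP a R i X W ρ ω) (hc : Good a R) (s : ℝ) :
    ‖deriv X s‖ ≤ 16 * π / 5 * ‖X s - a i‖ := by
  set r : ℂ := X s - a i with hr
  have h1 := h.sum_ld s
  rw [← add_sum_erase univ _ (mem_univ i)] at h1
  have hi : r ≠ 0 := h.ne i s
  set E : ℂ := ∑ k ∈ univ.erase i, r / (X s - a k) with hE
  have h2 : deriv X s * (1 + E) = ω * Complex.I * r := by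
    rw [← h1, hE, mul_add, mul_sum, add_mul, sum_mul]
    congr 1
    · rw [← hr, mul_one]
      field_simp
    · refine sum_congr rfl fun k _ => ?_
      ring
  have h3 : ‖E‖ ≤ 3 / 8 := by
    calc ‖E‖ ≤ ∑ k ∈ univ.erase i, ‖r / (X s - a k)‖ := norm_sum_le _ _
      _ ≤ ∑ k ∈ univ.erase i, ‖r‖ * tk a i k := by
          refine sum_le_sum fun k hk => ?_
          rw [norm_div, div_eq_mul_inv]
          exact mul_le_mul_of_nonneg_left (h.inv_le hc (ne_of_mem_erase hk).symm s)
            (norm_nonneg _)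
      _ = ‖r‖ * ∑ k ∈ univ.erase i, tk a i k := by rw [mul_sum]
      _ ≤ 3 / 8 := h.small hc s
  have h4 : 5 / 8 ≤ ‖1 + E‖ := by
    have h5 := norm_sub_norm_le (1 : ℂ) (-E)
    rw [norm_neg, sub_neg_eq_add, norm_one] at h5
    linarith
  have h5 : ‖deriv X s‖ * ‖1 + E‖ ≤ 2 * π * ‖r‖ := by
    rw [← norm_mul, h2, norm_mul, norm_mul, Complex.norm_I, mul_one, Complex.norm_real,
      Real.norm_eq_abs]
    exact mul_le_mul_of_nonneg_right h.ωle (norm_nonneg _)
  have h6 : ‖deriv X s‖ * (5 / 8) ≤ 2 * π * ‖r‖ :=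
    (mul_le_mul_of_nonneg_left h4 (norm_nonneg _)).trans h5
  have h7 : 16 * π / 5 * ‖r‖ = 8 / 5 * (2 * π * ‖r‖) := by ring
  rw [h7]
  linarith

theorem LP.deriv_sub (h : LP a R i X W ρ ω) (k : Fin (m + 1)) (s : ℝ) :
    deriv (fun s => X s - a k) s = deriv X s := by
  rw [deriv_sub_const]

theorem LP.im_le (h : LP a R i X W ρ ω) (hc : Good a R) {k : Fin (m + 1)} (hk : i ≠ k) (s : ℝ) :
    |(deriv (fun s => X s - a k) s / (X s - a k)).im| ≤ 16 * π / 5 * alp a i k := by
  refine (Complex.abs_im_le_norm _).trans ?_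
  rw [h.deriv_sub, norm_div, div_eq_mul_inv]
  calc ‖deriv X s‖ * ‖X s - a k‖⁻¹ ≤ 16 * π / 5 * ‖X s - a i‖ * tk a i k :=
        mul_le_mul (h.deriv_le hc s) (h.inv_le hc hk s) (inv_nonneg.2 (norm_nonneg _))
          (by positivity)
    _ = 16 * π / 5 * (‖X s - a i‖ * tk a i k) := by ring
    _ ≤ 16 * π / 5 * alp a i k := mul_le_mul_of_nonneg_left (h.r_le hc hk s) (by positivity)

theorem LP.log_le (h : LP a R i X W ρ ω) (hc : Good a R) {k : Fin (m + 1)} (hk : i ≠ k) (s : ℝ) :
    |Real.log ‖X s - a k‖ - Real.log ‖a i - a k‖| ≤ alp a i k := by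
  refine le_trans ?_ (h.r_le hc hk s)
  have h1 := hc.sep i k hk
  have hd : 0 < ‖a i - a k‖ := by linarith
  have hr := h.near s
  have hr0 := norm_nonneg (X s - a i)
  have hx : 0 < ‖X s - a k‖ := norm_pos_iff.2 (h.ne k s)
  have h2 : ‖X s - a k‖ ≤ ‖a i - a k‖ + ‖X s - a i‖ := by
    have e : X s - a k = (a i - a k) + (X s - a i) := by ring
    rw [e]
    exact norm_add_le _ _
  have h3 : ‖a i - a k‖ ≤ ‖X s - a k‖ + ‖X s - a i‖ := by
    have e : a i - a k = (X s - a k) - (X s - a i) := by ring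
    rw [e]
    exact norm_sub_le _ _
  rw [← Real.log_div hx.ne' hd.ne']
  set q := ‖X s - a k‖ / ‖a i - a k‖ with hq
  have hq0 : 0 < q := div_pos hx hd
  set r := ‖X s - a i‖ with hrdef
  set d := ‖a i - a k‖ with hddef
  have ht : tk a i k = (d - 1 / 4)⁻¹ := rfl
  have htd : d⁻¹ ≤ tk a i k := by
    rw [ht]
    exact inv_anti₀ (by linarith) (by linarith)
  have ht0 := hc.tk_pos hk
  rw [abs_le]
  constructor
  · have h4 := Real.one_sub_inv_le_log_of_pos hq0
    have h5 : -(r * tk a i k) ≤ 1 - q⁻¹ := by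
      have h6 : q⁻¹ = d / ‖X s - a k‖ := by rw [hq, inv_div]
      have h7 : d / ‖X s - a k‖ ≤ 1 + r * tk a i k := by
        rw [div_le_iff₀ hx]
        have h8 : r * tk a i k * (d - 1 / 4) = r := by
          rw [ht, mul_assoc, inv_mul_cancel₀ (by linarith), mul_one]
        have h9 : d - 1 / 4 ≤ ‖X s - a k‖ := by linarith
        have h10 : r ≤ r * tk a i k * ‖X s - a k‖ := by
          calc r = r * tk a i k * (d - 1 / 4) := h8.symm
            _ ≤ r * tk a i k * ‖X s - a k‖ :=
              mul_le_mul_of_nonneg_left h9 (mul_nonneg hr0 ht0.le)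
        linarith
      rw [h6]
      linarith
    linarith
  · have h4 := Real.log_le_sub_one_of_pos hq0
    have h5 : q - 1 ≤ r * tk a i k := by
      have h6 : q ≤ 1 + r * d⁻¹ := by
        rw [hq, div_le_iff₀ hd, add_mul, mul_assoc, inv_mul_cancel₀ hd.ne']
        linarith
      have h7 : r * d⁻¹ ≤ r * tk a i k := mul_le_mul_of_nonneg_left htd hr0
      linarith
    linarith

theorem LP.wind (h : LP a R i X W ρ ω) (hc : Good a R) {k : Fin (m + 1)} (hk : i ≠ k) :
    ∫ s in (0 : ℝ)..1, (deriv (fun s => X s - a k) s / (X s - a k)).im = 0 := by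
  have h1 := hc.sep i k hk
  have hcc : a i - a k ≠ 0 := by
    rw [← norm_pos_iff]
    linarith
  have nX := h.nz k
  set w : ℝ → ℂ := fun s => 1 + (X s - a i) / (a i - a k) with hw
  have hws : ∀ s, w s ∈ Complex.slitPlane := by
    intro s
    refine Complex.mem_slitPlane_iff.2 (Or.inl ?_)
    have h1 : ‖(X s - a i) / (a i - a k)‖ < 1 := by
      rw [norm_div, div_lt_one (norm_pos_iff.2 hcc)]
      linarith [h.near s]
    have h2 := Complex.abs_re_le_norm ((X s - a i) / (a i - a k))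
    have h3 := (abs_le.1 h2).1
    rw [hw]
    simp only [Complex.add_re, Complex.one_re]
    linarith
  have hXd : ∀ s, HasDerivAt X (deriv X s) s := fun s =>
    (h.smooth.differentiable (by norm_num) s).hasDerivAt
  have hlog : ∀ s, HasDerivAt (fun s => Complex.log (w s))
      (deriv (fun s => X s - a k) s / (X s - a k)) s := by
    intro s
    have h1 : HasDerivAt w (deriv X s / (a i - a k)) s := by
      rw [hw]
      exact (((hXd s).sub_const (a i)).div_const (a i - a k)).const_add 1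
    have h2 := h1.clog_real (hws s)
    refine h2.congr_deriv ?_
    rw [((hXd s).sub_const (a k)).deriv]
    have h3 : w s = (X s - a k) / (a i - a k) := by
      rw [hw]
      simp only
      field_simp
      ring
    rw [h3]
    have := nX.ne_zero s
    field_simp
  have hwind : ∫ s in (0 : ℝ)..1, (deriv (fun s => X s - a k) s / (X s - a k)) = 0 := by
    rw [intervalIntegral.integral_eq_sub_of_hasDerivAt (fun s _ => hlog s)
      (nX.cont_ld.intervalIntegrable _ _)]
    have h1 : X 1 = X 0 := by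
      have := h.per 0
      rwa [zero_add] at this
    simp only [hw, h1, sub_self]
  have h1 := Complex.imCLM.intervalIntegral_comp_comm
    (nX.cont_ld.intervalIntegrable (μ := volume) 0 1)
  rw [hwind, map_zero] at h1
  exact h1

/-- the mean of the logarithm -/
theorem LP.int_log (h : LP a R i X W ρ ω) (hc : Good a R) {k : Fin (m + 1)} (hk : i ≠ k) :
    Real.log ‖a i - a k‖ - alp a i k ≤ ∫ s in (0 : ℝ)..1, Real.log ‖X s - a k‖ := by
  have h1 : ∫ _s in (0 : ℝ)..1, (Real.log ‖a i - a k‖ - alp a i k) ≤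
      ∫ s in (0 : ℝ)..1, Real.log ‖X s - a k‖ := by
    refine intervalIntegral.integral_mono_on zero_le_one
      (continuous_const.intervalIntegrable _ _) ((h.nz k).cont_log.intervalIntegrable _ _)
      fun s _ => ?_
    have h2 := (abs_le.1 (h.log_le hc hk s)).1
    linarith
  simpa using h1

section two

variable {n : ℕ} {b : Fin (n + 1) → ℂ} {j : Fin (n + 1)} {Y V : ℝ → ℂ} {ρ' ω' R' : ℝ}

/-- the regulator of the two products -/
theorem pr_WV (h : LP a R i X W ρ (2 * π)) (h' : LP b R' j Y V ρ' (-(2 * π))) :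
    pr W V = -(2 * π * (Real.log ρ + Real.log ρ')) := by
  unfold pr
  simp only [h.ldW, h'.ldW, h.nW, h'.nW]
  rw [intervalIntegral.integral_const]
  simp
  ring

theorem pr_WH (h : LP a R i X W ρ (2 * π)) (h' : LP b R' j Y V ρ' (-(2 * π))) (hb : Good b R')
    {l : Fin (n + 1)} (hl : j ≠ l) :
    pr W (fun s => Y s - b l) ≤ -(2 * π * (Real.log ‖b j - b l‖ - alp b j l)) := by
  unfold pr
  simp only [h.ldW, h.nW]
  have nY := h'.nz l
  have i1 : IntervalIntegrable (fun s => Real.log ρ *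
      (deriv (fun s => Y s - b l) s / (Y s - b l)).im) volume 0 1 :=
    (continuous_const.mul nY.cont_im).intervalIntegrable _ _
  have i2 : IntervalIntegrable (fun s => Real.log ‖Y s - b l‖ * (2 * π)) volume 0 1 :=
    (nY.cont_log.mul continuous_const).intervalIntegrable _ _
  rw [intervalIntegral.integral_sub i1 i2,
    intervalIntegral.integral_const_mul, intervalIntegral.integral_mul_const, h'.wind hb hl]
  have h1 := h'.int_log hb hl
  have h2 := Real.pi_pos
  nlinarith

theorem pr_GV (h : LP a R i X W ρ (2 * π)) (h' : LP b R' j Y V ρ' (-(2 * π))) (ha : Good a R)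
    {k : Fin (m + 1)} (hk : i ≠ k) :
    pr (fun s => X s - a k) V ≤ -(2 * π * (Real.log ‖a i - a k‖ - alp a i k)) := by
  unfold pr
  simp only [h'.ldW, h'.nW]
  have nX := h.nz k
  have i1 : IntervalIntegrable (fun s => Real.log ρ' *
      (deriv (fun s => X s - a k) s / (X s - a k)).im) volume 0 1 :=
    (continuous_const.mul nX.cont_im).intervalIntegrable _ _
  have i2 : IntervalIntegrable (fun s => Real.log ‖X s - a k‖ * (-(2 * π))) volume 0 1 :=
    (nX.cont_log.mul continuous_const).intervalIntegrable _ _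
  rw [intervalIntegral.integral_sub i2 i1,
    intervalIntegral.integral_const_mul, intervalIntegral.integral_mul_const, h.wind ha hk]
  have h1 := h.int_log ha hk
  have h2 := Real.pi_pos
  nlinarith

theorem pr_GH (h : LP a R i X W ρ ω) (h' : LP b R' j Y V ρ' ω') (ha : Good a R) (hb : Good b R')
    {k : Fin (m + 1)} (hk : i ≠ k) {l : Fin (n + 1)} (hl : j ≠ l) :
    |pr (fun s => X s - a k) (fun s => Y s - b l)| ≤
      32 * π / 5 * (alp a i k * alp b j l) := by
  have nX := h.nz k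
  have nY := h'.nz l
  set P : ℝ → ℝ := fun s => (deriv (fun s => X s - a k) s / (X s - a k)).im with hP
  set Q : ℝ → ℝ := fun s => (deriv (fun s => Y s - b l) s / (Y s - b l)).im with hQ
  have cP : Continuous P := nX.cont_im
  have cQ : Continuous Q := nY.cont_im
  have e : pr (fun s => X s - a k) (fun s => Y s - b l) =
      ∫ s in (0 : ℝ)..1, ((Real.log ‖X s - a k‖ - Real.log ‖a i - a k‖) * Q s -
        (Real.log ‖Y s - b l‖ - Real.log ‖b j - b l‖) * P s) := by
    have e1 : (fun s => (Real.log ‖X s - a k‖ - Real.log ‖a i - a k‖) * Q s -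
        (Real.log ‖Y s - b l‖ - Real.log ‖b j - b l‖) * P s) = fun s =>
        (Real.log ‖X s - a k‖ * Q s - Real.log ‖Y s - b l‖ * P s) -
          (Real.log ‖a i - a k‖ * Q s - Real.log ‖b j - b l‖ * P s) := by
      funext s
      ring
    rw [e1, intervalIntegral.integral_sub, intervalIntegral.integral_sub
      (f := fun s => Real.log ‖a i - a k‖ * Q s), intervalIntegral.integral_const_mul,
      intervalIntegral.integral_const_mul, h.wind ha hk, h'.wind hb hl, mul_zero, mul_zero,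
      sub_zero, sub_zero]
    · rfl
    · exact (continuous_const.mul cQ).intervalIntegrable _ _
    · exact (continuous_const.mul cP).intervalIntegrable _ _
    · exact ((nX.cont_log.mul cQ).sub (nY.cont_log.mul cP)).intervalIntegrable _ _
    · exact ((continuous_const.mul cQ).sub (continuous_const.mul cP)).intervalIntegrable _ _
  rw [e, ← Real.norm_eq_abs]
  refine (intervalIntegral.norm_integral_le_of_norm_le_const
    (C := 32 * π / 5 * (alp a i k * alp b j l)) fun s _ => ?_).trans (by simp)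
  have hA := ha.alp_nonneg hk
  have hB := hb.alp_nonneg hl
  have h1 : |(Real.log ‖X s - a k‖ - Real.log ‖a i - a k‖) * Q s| ≤
      alp a i k * (16 * π / 5 * alp b j l) := by
    rw [abs_mul]
    exact mul_le_mul (h.log_le ha hk s) (h'.im_le hb hl s) (abs_nonneg _) hA
  have h2 : |(Real.log ‖Y s - b l‖ - Real.log ‖b j - b l‖) * P s| ≤
      alp b j l * (16 * π / 5 * alp a i k) := by
    rw [abs_mul]
    exact mul_le_mul (h'.log_le hb hl s) (h.im_le ha hk s) (abs_nonneg _) hB
  rw [Real.norm_eq_abs]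
  refine (abs_sub _ _).trans ?_
  have e3 : 32 * π / 5 * (alp a i k * alp b j l) =
      alp a i k * (16 * π / 5 * alp b j l) + alp b j l * (16 * π / 5 * alp a i k) := by
    ring
  rw [e3]
  exact add_le_add h1 h2

end two

end Pool.Agent.J4H54.K2
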