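import Pool.Agent.TH826.UH.Sep
set_option autoImplicit false

/-!
Real points with mutual distances at least `1`: lower bounds for the products of the distances.
-/

namespace Pool.Agent.J4H54.K2

open Pool.Agent.TH826.UH (outer Sepd)

open Finset

/-- real points with mutual distances at least `1` -/
structure Conf {m : ℕ} (a : Fin (m + 1) → ℂ) : Prop where
  im : ∀ i, (a i).im = 0
  sep : ∀ i k, i ≠ k → 1 ≤ ‖a i - a k‖

variable {m : ℕ} {a : Fin (m + 1) → ℂ}

theorem Conf.norm_sub (h : Conf a) (i k : Fin (m + 1)) : ‖a i - a k‖ = |(a i).re - (a k).re| := by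
  have h1 : a i - a k = (((a i).re - (a k).re : ℝ) : ℂ) := by
    apply Complex.ext
    · simp
    · simp [h.im i, h.im k]
  rw [h1, Complex.norm_real, Real.norm_eq_abs]

theorem Conf.sep' (h : Conf a) {i k : Fin (m + 1)} (hik : i ≠ k) :
    1 ≤ |(a i).re - (a k).re| := by
  rw [← h.norm_sub]
  exact h.sep i k hik

/-- at most `2 q` points have a distance smaller than `q` from `c` -/
theorem Conf.card_lt (h : Conf a) (c : ℝ) (q : ℕ) :
    (univ.filter fun i => |c - (a i).re| < q).card ≤ 2 * q := by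
  classical
  have h1 : ∀ i ∈ univ.filter (fun i => |c - (a i).re| < (q : ℝ)),
      (⌊(a i).re - c + q⌋).toNat ∈ range (2 * q) := by
    intro i hi
    have h2 := abs_lt.1 (mem_filter.1 hi).2
    have h3 : (0 : ℝ) ≤ (a i).re - c + q := by linarith [h2.2]
    have h4 : (a i).re - c + q < 2 * q := by linarith [h2.1]
    rw [mem_range]
    have h5 : 0 ≤ ⌊(a i).re - c + q⌋ := Int.floor_nonneg.2 h3
    have h6 : ⌊(a i).re - c + q⌋ < 2 * q := by
      rw [Int.floor_lt]
      push_cast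
      exact h4
    omega
  refine (card_le_card_of_injOn _ h1 ?_).trans (card_range _).le
  intro i hi k hk hik
  have h2 := abs_lt.1 (mem_filter.1 hi).2
  have h2' := abs_lt.1 (mem_filter.1 hk).2
  have h5 : 0 ≤ ⌊(a i).re - c + q⌋ := Int.floor_nonneg.2 (by linarith [h2.2])
  have h5' : 0 ≤ ⌊(a k).re - c + q⌋ := Int.floor_nonneg.2 (by linarith [h2'.2])
  have h6 : ⌊(a i).re - c + q⌋ = ⌊(a k).re - c + q⌋ := by
    have h7 : (⌊(a i).re - c + q⌋).toNat = (⌊(a k).re - c + q⌋).toNat := hik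
    omega
  by_contra hne
  have h8 := h.sep' hne
  have h9 := Int.abs_sub_lt_one_of_floor_eq_floor h6
  have h10 : (a i).re - c + q - ((a k).re - c + q) = (a i).re - (a k).re := by ring
  rw [h10] at h9
  linarith

/-- at most `2 q` points except for `a_i` have a distance smaller than `q + 1` from `a_i` -/
theorem Conf.card_near (h : Conf a) (i : Fin (m + 1)) (q : ℕ) :
    ((univ.erase i).filter fun k => ‖a i - a k‖ < q + 1).card ≤ 2 * q := by
  classical
  set N := (univ.erase i).filter fun k => ‖a i - a k‖ < q + 1 with hN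
  have hne : ∀ k ∈ N, i ≠ k := fun k hk => (ne_of_mem_erase (mem_filter.1 hk).1).symm
  have hlt : ∀ k ∈ N, |(a i).re - (a k).re| < q + 1 := fun k hk => by
    rw [← h.norm_sub]
    exact (mem_filter.1 hk).2
  set φ : Fin (m + 1) → ℕ := fun k => if (a i).re ≤ (a k).re then
    (⌊(a k).re - (a i).re⌋).toNat - 1 else q + ((⌊(a i).re - (a k).re⌋).toNat - 1) with hφ
  have h1 : ∀ k ∈ N, φ k ∈ range (2 * q) := by
    intro k hk
    have h2 := h.sep' (hne k hk)
    have h3 := abs_lt.1 (hlt k hk)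
    rw [mem_range, hφ]
    simp only
    split_ifs with h4
    · have h5 : 1 ≤ (a k).re - (a i).re := by
        rcases le_abs.1 h2 with h6 | h6 <;> linarith
      have h6 : 1 ≤ ⌊(a k).re - (a i).re⌋ := Int.le_floor.2 (by push_cast; exact h5)
      have h7 : ⌊(a k).re - (a i).re⌋ < q + 1 := by
        rw [Int.floor_lt]
        push_cast
        linarith [h3.1]
      omega
    · have h5 : 1 ≤ (a i).re - (a k).re := by
        rcases le_abs.1 h2 with h6 | h6 <;> linarith
      have h6 : 1 ≤ ⌊(a i).re - (a k).re⌋ := Int.le_floor.2 (by push_cast; exact h5)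
      have h7 : ⌊(a i).re - (a k).re⌋ < q + 1 := by
        rw [Int.floor_lt]
        push_cast
        linarith [h3.2]
      omega
  refine (card_le_card_of_injOn _ h1 ?_).trans (card_range _).le
  intro k hk l hl hkl
  have hk' := hne k hk
  have hl' := hne l hl
  have h2 := h.sep' hk'
  have h3 := abs_lt.1 (hlt k hk)
  have h2' := h.sep' hl'
  have h3' := abs_lt.1 (hlt l hl)
  by_contra hcon
  have h8 := h.sep' hcon
  simp only [hφ] at hkl
  by_cases hA : (a i).re ≤ (a k).re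
  · have h5 : 1 ≤ (a k).re - (a i).re := by
      rcases le_abs.1 h2 with h6 | h6 <;> linarith
    have h6 : 1 ≤ ⌊(a k).re - (a i).re⌋ := Int.le_floor.2 (by push_cast; exact h5)
    have h7 : ⌊(a k).re - (a i).re⌋ < q + 1 := by
      rw [Int.floor_lt]
      push_cast
      linarith [h3.1]
    rw [if_pos hA] at hkl
    by_cases hB : (a i).re ≤ (a l).re
    · have h5' : 1 ≤ (a l).re - (a i).re := by
        rcases le_abs.1 h2' with h6 | h6 <;> linarith
      have h6' : 1 ≤ ⌊(a l).re - (a i).re⌋ := Int.le_floor.2 (by push_cast; exact h5')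
      rw [if_pos hB] at hkl
      have h9 : ⌊(a k).re - (a i).re⌋ = ⌊(a l).re - (a i).re⌋ := by omega
      have h10 := Int.abs_sub_lt_one_of_floor_eq_floor h9
      have h11 : (a k).re - (a i).re - ((a l).re - (a i).re) = (a k).re - (a l).re := by ring
      rw [h11] at h10
      linarith
    · rw [if_neg hB] at hkl
      omega
  · have h5 : 1 ≤ (a i).re - (a k).re := by
      rcases le_abs.1 h2 with h6 | h6 <;> linarith
    have h6 : 1 ≤ ⌊(a i).re - (a k).re⌋ := Int.le_floor.2 (by push_cast; exact h5)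
    rw [if_neg hA] at hkl
    by_cases hB : (a i).re ≤ (a l).re
    · have h5' : 1 ≤ (a l).re - (a i).re := by
        rcases le_abs.1 h2' with h6 | h6 <;> linarith
      have h7' : ⌊(a l).re - (a i).re⌋ < q + 1 := by
        rw [Int.floor_lt]
        push_cast
        linarith [h3'.1]
      have h6' : 1 ≤ ⌊(a l).re - (a i).re⌋ := Int.le_floor.2 (by push_cast; exact h5')
      rw [if_pos hB] at hkl
      omega
    · rw [if_neg hB] at hkl
      have h5' : 1 ≤ (a i).re - (a l).re := by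
        rcases le_abs.1 h2' with h6 | h6 <;> linarith
      have h6' : 1 ≤ ⌊(a i).re - (a l).re⌋ := Int.le_floor.2 (by push_cast; exact h5')
      have h9 : ⌊(a i).re - (a k).re⌋ = ⌊(a i).re - (a l).re⌋ := by omega
      have h10 := Int.abs_sub_lt_one_of_floor_eq_floor h9
      have h11 : (a i).re - (a k).re - ((a i).re - (a l).re) = -((a k).re - (a l).re) := by ring
      rw [h11, abs_neg] at h10
      linarith

/-- the product over the points with distance at least one and the other ones -/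
theorem Conf.out_aux (h : Conf a) {x : ℂ} (hx : x ∈ outer a (1 / 4)) {B : ℝ}
    (hB : B ≤ ∏ i ∈ univ.filter (fun i => ¬ |x.re - (a i).re| < (1 : ℕ)), ‖x - a i‖)
    (hB0 : 0 ≤ B) : 3 / 16 * B ≤ ∏ i, ‖x - a i‖ := by
  classical
  set S : Finset (Fin (m + 1)) := univ.filter fun i => |x.re - (a i).re| < (1 : ℕ) with hS
  have hcard : S.card ≤ 2 := h.card_lt x.re 1
  have hS1 : 3 / 16 ≤ ∏ i ∈ S, ‖x - a i‖ := by
    have h0 : S.card = 0 ∨ S.card = 1 ∨ S.card = 2 := by omega
    rcases h0 with h0 | h0 | h0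
    · rw [card_eq_zero.1 h0, prod_empty]
      norm_num
    · obtain ⟨i, hi⟩ := card_eq_one.1 h0
      rw [hi, prod_singleton]
      have := hx i
      linarith
    · obtain ⟨i, j, hij, hS2⟩ := card_eq_two.1 h0
      rw [hS2, prod_pair hij]
      have h1 := hx i
      have h2 := hx j
      have h3 := h.sep i j hij
      have h4 : ‖a i - a j‖ ≤ ‖x - a j‖ + ‖x - a i‖ := by
        have e : a i - a j = (x - a j) - (x - a i) := by ring
        rw [e]
        exact norm_sub_le _ _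
      nlinarith
  rw [← prod_filter_mul_prod_filter_not univ fun i => |x.re - (a i).re| < (1 : ℕ)]
  exact mul_le_mul hS1 hB hB0 (prod_nonneg fun i _ => norm_nonneg _)

theorem Conf.out (h : Conf a) {x : ℂ} (hx : x ∈ outer a (1 / 4)) :
    3 / 16 * 2 ^ (m - 3) ≤ ∏ i, ‖x - a i‖ := by
  classical
  refine h.out_aux hx ?_ (by positivity)
  set F1 : Finset (Fin (m + 1)) := univ.filter (fun i => ¬ |x.re - (a i).re| < (1 : ℕ)) with hF1
  set F2 : Finset (Fin (m + 1)) := univ.filter (fun i => ¬ |x.re - (a i).re| < (2 : ℕ)) with hF2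
  have hsub : F2 ⊆ F1 := by
    intro i hi
    refine mem_filter.2 ⟨mem_univ i, ?_⟩
    have h2 := (mem_filter.1 hi).2
    rw [not_lt] at h2 ⊢
    push_cast at h2 ⊢
    linarith
  have hc2 : m - 3 ≤ F2.card := by
    have h2 := h.card_lt x.re 2
    have h3 := card_filter_add_card_filter_not (s := (univ : Finset (Fin (m + 1))))
      (fun i => |x.re - (a i).re| < (2 : ℕ))
    rw [card_univ, Fintype.card_fin] at h3
    have h4 : (univ.filter fun i => |x.re - (a i).re| < (2 : ℕ)).card + F2.card = m + 1 := h3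
    omega
  have hle : ∀ i, |x.re - (a i).re| ≤ ‖x - a i‖ := by
    intro i
    have h3 := Complex.abs_re_le_norm (x - a i)
    rwa [Complex.sub_re] at h3
  have hp2 : (2 : ℝ) ^ (m - 3) ≤ ∏ i ∈ F2, ‖x - a i‖ := by
    calc (2 : ℝ) ^ (m - 3) ≤ 2 ^ F2.card := pow_le_pow_right₀ (by norm_num) hc2
      _ = ∏ _i ∈ F2, (2 : ℝ) := by rw [prod_const]
      _ ≤ ∏ i ∈ F2, ‖x - a i‖ := by
        refine prod_le_prod (fun _ _ => by norm_num) fun i hi => ?_
        have h2 := (mem_filter.1 hi).2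
        rw [not_lt] at h2
        push_cast at h2
        exact h2.trans (hle i)
  have hp1 : 1 ≤ ∏ i ∈ F1 \ F2, ‖x - a i‖ := by
    refine (prod_const_one (s := F1 \ F2)).symm.le.trans
      (prod_le_prod (fun _ _ => zero_le_one) fun i hi => ?_)
    have h2 := (mem_filter.1 (mem_sdiff.1 hi).1).2
    rw [not_lt, Nat.cast_one] at h2
    exact h2.trans (hle i)
  rw [← prod_sdiff hsub]
  have h0 : (0 : ℝ) < 2 ^ (m - 3) := by positivity
  nlinarith

/-- points at distance at least two -/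
theorem far {ι : Type*} [DecidableEq ι] (F : Finset ι) (t g : ι → ℝ)
    (ht : ∀ k ∈ F, t k ≤ 4 / 7) (hg : ∀ k ∈ F, 7 / 4 ≤ g k) {K T Q q : ℝ} (hK : 0 < K)
    (hq : 4 / 7 ≤ 3 / 4 * (K * q)) (hq0 : 0 < q)
    (h1 : T ≤ K * Q) (h2 : q ≤ Q) :
    T + ∑ k ∈ F, t k ≤ K * (Q * ∏ k ∈ F, g k) ∧ q ≤ Q * ∏ k ∈ F, g k := by
  induction F using Finset.induction_on with
  | empty =>
    rw [sum_empty, prod_empty, mul_one, add_zero]
    exact ⟨h1, h2⟩
  | insert k F hk ih =>
    obtain ⟨h3, h4⟩ := ih (fun k hk => ht k (mem_insert_of_mem hk))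
      (fun k hk => hg k (mem_insert_of_mem hk))
    have h5 := ht k (mem_insert_self k F)
    have h6 := hg k (mem_insert_self k F)
    rw [sum_insert hk, prod_insert hk]
    have e : Q * (g k * ∏ k ∈ F, g k) = (Q * ∏ k ∈ F, g k) * g k := by ring
    rw [e]
    set P := Q * ∏ k ∈ F, g k with hP
    have hP0 : 0 < P := hq0.trans_le h4
    have h7 : K * P * (7 / 4) ≤ K * (P * g k) := by
      have e7 : K * (P * g k) = K * P * g k := by ring
      rw [e7]
      exact mul_le_mul_of_nonneg_left h6 (by positivity)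
    have h8 : K * q ≤ K * P := mul_le_mul_of_nonneg_left h4 hK.le
    constructor
    · linarith
    · nlinarith

theorem low (i k : Fin (m + 1)) {z : ℂ} (hz : ‖z‖ ≤ 1 / 4) :
    ‖a i - a k‖ - 1 / 4 ≤ ‖a i + z - a k‖ := by
  have h1 := norm_sub_norm_le (a i - a k) (-z)
  rw [norm_neg, sub_neg_eq_add] at h1
  have e : a i - a k + z = a i + z - a k := by ring
  rw [e] at h1
  linarith

theorem Conf.hpair (h : Conf a) (i k l : Fin (m + 1)) {z : ℂ} (hz : ‖z‖ ≤ 1 / 4)
    (h1 : 1 ≤ (a k).re - (a i).re) (h2 : 1 ≤ (a i).re - (a l).re) :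
    15 / 16 ≤ ‖a i + z - a k‖ * ‖a i + z - a l‖ := by
  have hz2 : z.re ^ 2 + z.im ^ 2 ≤ 1 / 16 := by
    have h3 : ‖z‖ ^ 2 ≤ (1 / 4) ^ 2 := pow_le_pow_left₀ (norm_nonneg _) hz 2
    rw [← Complex.normSq_eq_norm_sq, Complex.normSq_apply] at h3
    nlinarith
  have hre : |z.re| ≤ 1 / 4 := (Complex.abs_re_le_norm z).trans hz
  obtain ⟨hre1, hre2⟩ := abs_le.1 hre
  have e1 : ‖a i + z - a k‖ ^ 2 = (((a k).re - (a i).re) - z.re) ^ 2 + z.im ^ 2 := by
    rw [← Complex.normSq_eq_norm_sq, Complex.normSq_apply]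
    simp only [Complex.add_re, Complex.sub_re, Complex.add_im, Complex.sub_im, h.im i, h.im k]
    ring
  have e2 : ‖a i + z - a l‖ ^ 2 = (((a i).re - (a l).re) + z.re) ^ 2 + z.im ^ 2 := by
    rw [← Complex.normSq_eq_norm_sq, Complex.normSq_apply]
    simp only [Complex.add_re, Complex.sub_re, Complex.add_im, Complex.sub_im, h.im i, h.im l]
    ring
  have f1 : (1 - z.re) ^ 2 + z.im ^ 2 ≤ ‖a i + z - a k‖ ^ 2 := by
    rw [e1]
    nlinarith
  have f2 : (1 + z.re) ^ 2 + z.im ^ 2 ≤ ‖a i + z - a l‖ ^ 2 := by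
    rw [e2]
    nlinarith
  have f3 : ((1 - z.re) ^ 2 + z.im ^ 2) * ((1 + z.re) ^ 2 + z.im ^ 2) ≤
      ‖a i + z - a k‖ ^ 2 * ‖a i + z - a l‖ ^ 2 :=
    mul_le_mul f1 f2 (by positivity) (by positivity)
  have f4 : (15 / 16 : ℝ) ^ 2 ≤ ((1 - z.re) ^ 2 + z.im ^ 2) * ((1 + z.re) ^ 2 + z.im ^ 2) := by
    have e3 : ((1 - z.re) ^ 2 + z.im ^ 2) * ((1 + z.re) ^ 2 + z.im ^ 2) =
        (1 - z.re ^ 2) ^ 2 + z.im ^ 2 * (2 + 2 * z.re ^ 2 + z.im ^ 2) := by ring
    rw [e3]
    have f5 : 0 ≤ z.im ^ 2 * (2 + 2 * z.re ^ 2 + z.im ^ 2) := by positivity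
    have f6 : z.re ^ 2 ≤ 1 / 16 := by nlinarith [sq_nonneg z.im]
    nlinarith
  have f7 : (15 / 16 : ℝ) ^ 2 ≤ (‖a i + z - a k‖ * ‖a i + z - a l‖) ^ 2 := by
    rw [mul_pow]
    exact f4.trans f3
  exact le_of_sq_le_sq f7 (by positivity)

/-- the points at distance smaller than two -/
theorem Conf.near2 (h : Conf a) (i : Fin (m + 1)) {z : ℂ} (hz : ‖z‖ ≤ 1 / 4) :
    ∑ k ∈ (univ.erase i).filter (fun k => ‖a i - a k‖ < 2), (‖a i - a k‖ - 1 / 4)⁻¹ ≤
      3 * ∏ k ∈ (univ.erase i).filter (fun k => ‖a i - a k‖ < 2), ‖a i + z - a k‖ ∧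
    3 / 4 ≤ ∏ k ∈ (univ.erase i).filter (fun k => ‖a i - a k‖ < 2), ‖a i + z - a k‖ := by
  classical
  set N : Finset (Fin (m + 1)) := (univ.erase i).filter fun k => ‖a i - a k‖ < 2 with hN
  have hne : ∀ k ∈ N, i ≠ k := fun k hk => (ne_of_mem_erase (mem_filter.1 hk).1).symm
  have hlow : ∀ k, ‖a i - a k‖ - 1 / 4 ≤ ‖a i + z - a k‖ := fun k => low i k hz
  have hlt : ∀ k ∈ N, |(a i).re - (a k).re| < 2 := fun k hk => by
    rw [← h.norm_sub]
    exact (mem_filter.1 hk).2
  have hcard : N.card ≤ 2 := by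
    have h1 := h.card_near i 1
    norm_num at h1
    exact h1
  have hinv : ∀ k ∈ N, (‖a i - a k‖ - 1 / 4)⁻¹ ≤ 4 / 3 := by
    intro k hk
    have h1 := h.sep i k (hne k hk)
    have h2 : (3 / 4 : ℝ) ≤ ‖a i - a k‖ - 1 / 4 := by linarith
    have h3 := inv_anti₀ (by norm_num) h2
    norm_num at h3
    norm_num
    exact h3
  have h0 : N.card = 0 ∨ N.card = 1 ∨ N.card = 2 := by omega
  rcases h0 with h0 | h0 | h0
  · rw [card_eq_zero.1 h0, prod_empty, sum_empty]
    norm_num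
  · obtain ⟨k, hk⟩ := card_eq_one.1 h0
    have hkN : k ∈ N := by rw [hk]; exact mem_singleton_self k
    rw [hk, prod_singleton, sum_singleton]
    have h1 := hinv k hkN
    have h2 := hlow k
    have h3 := h.sep i k (hne k hkN)
    constructor <;> linarith
  · obtain ⟨k, l, hkl, hN2⟩ := card_eq_two.1 h0
    have hkN : k ∈ N := by rw [hN2]; simp
    have hlN : l ∈ N := by rw [hN2]; simp
    have h1 : 15 / 16 ≤ ‖a i + z - a k‖ * ‖a i + z - a l‖ := by
      have h4 := abs_lt.1 (hlt k hkN)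
      have h5 := abs_lt.1 (hlt l hlN)
      rcases le_abs.1 (h.sep' (hne k hkN)) with h2 | h2
      · rcases le_abs.1 (h.sep' (hne l hlN)) with h3 | h3
        · exfalso
          rcases le_abs.1 (h.sep' hkl) with h6 | h6 <;> linarith [h4.1, h4.2, h5.1, h5.2]
        · rw [mul_comm]
          exact h.hpair i l k hz (by linarith) h2
      · rcases le_abs.1 (h.sep' (hne l hlN)) with h3 | h3
        · exact h.hpair i k l hz (by linarith) h3
        · exfalso
          rcases le_abs.1 (h.sep' hkl) with h6 | h6 <;> linarith [h4.1, h4.2, h5.1, h5.2]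
    have h2 := hinv k hkN
    have h3 := hinv l hlN
    rw [hN2, prod_pair hkl, sum_pair hkl]
    constructor <;> linarith

theorem inv_le_of_le {x c : ℝ} (hc : 0 < c) (h : c ≤ x) : x⁻¹ ≤ c⁻¹ := inv_anti₀ hc h

/-- points at distance at least three -/
theorem big {ι : Type*} [DecidableEq ι] (F : Finset ι) (t g : ι → ℝ)
    (ht : ∀ k ∈ F, t k ≤ 4 / 11) (hg : ∀ k ∈ F, 11 / 4 ≤ g k) {T Q E : ℝ} (hE : 0 < E)
    (h1 : T * E ≤ 3 * Q) (h2 : E ≤ 3 * Q) :
    (T + ∑ k ∈ F, t k) * (E * 2 ^ F.card) ≤ 3 * (Q * ∏ k ∈ F, g k) ∧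
      E * 2 ^ F.card ≤ 3 * (Q * ∏ k ∈ F, g k) := by
  induction F using Finset.induction_on with
  | empty =>
    rw [sum_empty, prod_empty, mul_one, add_zero, card_empty, pow_zero, mul_one]
    exact ⟨h1, h2⟩
  | insert k F hk ih =>
    obtain ⟨h3, h4⟩ := ih (fun k hk => ht k (mem_insert_of_mem hk))
      (fun k hk => hg k (mem_insert_of_mem hk))
    have h5 := ht k (mem_insert_self k F)
    have h6 := hg k (mem_insert_self k F)
    rw [sum_insert hk, prod_insert hk, card_insert_of_notMem hk, pow_succ]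
    have e : Q * (g k * ∏ k ∈ F, g k) = (Q * ∏ k ∈ F, g k) * g k := by ring
    rw [e]
    set P := Q * ∏ k ∈ F, g k with hP
    set E' := E * 2 ^ F.card with hE'
    have hE'0 : 0 < E' := by positivity
    have e2 : E * (2 ^ F.card * 2) = E' * 2 := by rw [hE']; ring
    rw [e2]
    have hP0 : 0 < P := by linarith
    have h7 : P * (11 / 4) ≤ P * g k := mul_le_mul_of_nonneg_left h6 hP0.le
    have h8 : t k * E' ≤ 4 / 11 * E' := mul_le_mul_of_nonneg_right h5 hE'0.le
    constructor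
    · have e3 : (T + (t k + ∑ k ∈ F, t k)) * (E' * 2) =
          2 * ((T + ∑ k ∈ F, t k) * E') + 2 * (t k * E') := by ring
      rw [e3]
      linarith
    · linarith

/-- The sum of the reciprocal distances is bounded by the product of the distances. -/
theorem Conf.recip (h : Conf a) (i : Fin (m + 1)) {z : ℂ} (hz : ‖z‖ ≤ 1 / 4) :
    (∑ k ∈ univ.erase i, (‖a i - a k‖ - 1 / 4)⁻¹) * 2 ^ (m - 3) ≤
      3 * ∏ k ∈ univ.erase i, ‖a i + z - a k‖ := by
  classical
  set S : Finset (Fin (m + 1)) := (univ.erase i).filter fun k => ‖a i - a k‖ < 3 with hS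
  set G : Finset (Fin (m + 1)) := (univ.erase i).filter fun k => ¬ ‖a i - a k‖ < 3 with hG
  set N : Finset (Fin (m + 1)) := (univ.erase i).filter fun k => ‖a i - a k‖ < 2 with hN
  obtain ⟨hn1, hn2⟩ := h.near2 i hz
  set t : Fin (m + 1) → ℝ := fun k => (‖a i - a k‖ - 1 / 4)⁻¹ with ht
  set g : Fin (m + 1) → ℝ := fun k => ‖a i + z - a k‖ with hg
  have hcu : (univ.erase i).card = m := by
    rw [card_erase_of_mem (mem_univ i), card_univ, Fintype.card_fin]
    rfl
  have hNc : N.card ≤ 2 := by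
    have h1 := h.card_near i 1
    norm_num at h1
    exact h1
  have hSc : S.card ≤ 4 := by
    have h1 := h.card_near i 2
    norm_num at h1
    exact h1
  have hSG : S.card + G.card = m := (card_filter_add_card_filter_not _).trans hcu
  have hNS : N ⊆ S := by
    intro k hk
    obtain ⟨h1, h2⟩ := mem_filter.1 hk
    exact mem_filter.2 ⟨h1, by linarith⟩
  have hmem : ∀ k ∈ S \ N, 2 ≤ ‖a i - a k‖ := by
    intro k hk
    obtain ⟨h1, h2⟩ := mem_sdiff.1 hk
    by_contra hcon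
    rw [not_le] at hcon
    exact h2 (mem_filter.2 ⟨(mem_filter.1 h1).1, hcon⟩)
  have htF : ∀ k, 2 ≤ ‖a i - a k‖ → t k ≤ 4 / 7 := fun k h1 => by
    have h3 := inv_le_of_le (by norm_num) (show (7 / 4 : ℝ) ≤ ‖a i - a k‖ - 1 / 4 by linarith)
    norm_num at h3
    rw [ht]
    norm_num
    exact h3
  have hgF : ∀ k, 2 ≤ ‖a i - a k‖ → 7 / 4 ≤ g k := fun k h1 => by
    have h2 := low (a := a) i k hz
    rw [hg]
    linarith
  have htG : ∀ k ∈ G, t k ≤ 4 / 11 := fun k hk => by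
    have h1 := (mem_filter.1 hk).2
    rw [not_lt] at h1
    have h3 := inv_le_of_le (by norm_num) (show (11 / 4 : ℝ) ≤ ‖a i - a k‖ - 1 / 4 by linarith)
    norm_num at h3
    rw [ht]
    norm_num
    exact h3
  have hgG : ∀ k ∈ G, 11 / 4 ≤ g k := fun k hk => by
    have h1 := (mem_filter.1 hk).2
    rw [not_lt] at h1
    have h2 := low (a := a) i k hz
    rw [hg]
    linarith
  -- the sets of points with distance smaller than three
  have hpart : ∀ M ⊆ S \ N, ∑ k ∈ N, t k + ∑ k ∈ M, t k ≤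
      3 * ((∏ k ∈ N, g k) * ∏ k ∈ M, g k) ∧ 3 / 4 ≤ (∏ k ∈ N, g k) * ∏ k ∈ M, g k :=
    fun M hM => far M t g (fun k hk => htF k (hmem k (hM hk))) (fun k hk => hgF k
      (hmem k (hM hk))) (K := 3) (q := 3 / 4) (by norm_num) (by norm_num) (by norm_num) hn1 hn2
  have eS1 : ∑ k ∈ S, t k = ∑ k ∈ N, t k + ∑ k ∈ S \ N, t k :=
    (sum_sdiff hNS).symm.trans (add_comm _ _)
  have eS2 : ∏ k ∈ S, g k = (∏ k ∈ N, g k) * ∏ k ∈ S \ N, g k :=
    (prod_sdiff hNS).symm.trans (mul_comm _ _)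
  obtain ⟨E, hE0, hE1, hE2, hE3⟩ : ∃ E : ℝ, 0 < E ∧ (∑ k ∈ S, t k) * E ≤ 3 * ∏ k ∈ S, g k ∧
      E ≤ 3 * ∏ k ∈ S, g k ∧ 2 ^ (m - 3) ≤ E * 2 ^ G.card := by
    by_cases h4 : S.card = 4
    · -- two points of distance at least two
      have h5 : 2 ≤ (S \ N).card := by
        have h6 := card_sdiff_of_subset hNS
        omega
      obtain ⟨k1, hk1, k2, hk2, hk12⟩ := one_lt_card.1 h5
      have hk2' : k2 ∈ (S \ N).erase k1 := mem_erase.2 ⟨hk12.symm, hk2⟩
      set M := ((S \ N).erase k1).erase k2 with hM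
      obtain ⟨p1, p2⟩ := hpart M ((erase_subset _ _).trans (erase_subset _ _))
      set Q' := (∏ k ∈ N, g k) * ∏ k ∈ M, g k with hQ'
      have u1 := htF k1 (hmem k1 hk1)
      have u2 := htF k2 (hmem k2 hk2)
      have q1 := hgF k1 (hmem k1 hk1)
      have q2 := hgF k2 (hmem k2 hk2)
      have e1 : ∑ k ∈ S, t k = ∑ k ∈ N, t k + ∑ k ∈ M, t k + (t k1 + t k2) := by
        rw [eS1, ← add_sum_erase _ _ hk1, ← add_sum_erase _ _ hk2']
        ring
      have e2 : ∏ k ∈ S, g k = Q' * (g k1 * g k2) := by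
        rw [eS2, ← mul_prod_erase _ _ hk1, ← mul_prod_erase _ _ hk2', hQ']
        ring
      have q12 : (49 / 16 : ℝ) ≤ g k1 * g k2 := by nlinarith
      have q3 : Q' * (49 / 16) ≤ Q' * (g k1 * g k2) :=
        mul_le_mul_of_nonneg_left q12 (by linarith)
      refine ⟨2, two_pos, ?_, ?_, ?_⟩
      · rw [e1, e2]
        linarith
      · rw [e2]
        linarith
      · have e3 : m - 3 = G.card + 1 := by omega
        rw [e3, pow_succ]
        linarith
    · obtain ⟨p1, p2⟩ := hpart (S \ N) (Subset.refl _)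
      rw [← eS1, ← eS2] at p1
      rw [← eS2] at p2
      refine ⟨1, one_pos, by linarith, by linarith, ?_⟩
      rw [one_mul]
      exact pow_le_pow_right₀ (by norm_num) (by omega)
  obtain ⟨r1, r2⟩ := big G t g htG hgG hE0 hE1 hE2
  have e1 : ∑ k ∈ univ.erase i, t k = ∑ k ∈ S, t k + ∑ k ∈ G, t k :=
    (sum_filter_add_sum_filter_not _ _ _).symm
  have e2 : ∏ k ∈ univ.erase i, g k = (∏ k ∈ S, g k) * ∏ k ∈ G, g k :=
    (prod_filter_mul_prod_filter_not _ _ _).symm
  have ht0 : 0 ≤ ∑ k ∈ univ.erase i, t k := by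
    refine sum_nonneg fun k hk => ?_
    have h1 := h.sep i k (ne_of_mem_erase hk).symm
    exact inv_nonneg.2 (by linarith)
  calc (∑ k ∈ univ.erase i, t k) * 2 ^ (m - 3) ≤ (∑ k ∈ univ.erase i, t k) * (E * 2 ^ G.card) :=
        mul_le_mul_of_nonneg_left hE3 ht0
    _ ≤ 3 * ∏ k ∈ univ.erase i, g k := by
        rw [e1, e2]
        exact r1

/-- the lower bound for the Laplacian -/
theorem Conf.lap (h : Conf a) (i : Fin (m + 1)) (e : Fin (m + 1) → ℝ) {M : ℝ}
    (hM : 0 ≤ M) (h0 : ∀ k, 0 ≤ e k) (h2 : ∀ k, e k ≤ 2 * M) (hi : e i = 0)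
    (hs : ∑ k, e k = (m + 1) * M) :
    M * Real.log (2 ^ (m - 3)) ≤ ∑ k ∈ univ.erase i, e k * Real.log ‖a i - a k‖ := by
  classical
  set N : Finset (Fin (m + 1)) := (univ.erase i).filter fun k => ‖a i - a k‖ < 2 with hN
  set F : Finset (Fin (m + 1)) := (univ.erase i).filter fun k => ¬ ‖a i - a k‖ < 2 with hF
  have hl2 : 0 < Real.log 2 := Real.log_pos (by norm_num)
  have hcard : N.card ≤ 2 := by
    have h1 := h.card_near i 1
    norm_num at h1
    exact h1
  have hNs : ∑ k ∈ N, e k ≤ 4 * M := by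
    calc ∑ k ∈ N, e k ≤ ∑ _k ∈ N, 2 * M := sum_le_sum fun k _ => h2 k
      _ = N.card * (2 * M) := by rw [sum_const, nsmul_eq_mul]
      _ ≤ 2 * (2 * M) := mul_le_mul_of_nonneg_right (by exact_mod_cast hcard) (by linarith)
      _ = 4 * M := by ring
  have hsum : ∑ k ∈ N, e k + ∑ k ∈ F, e k = (m + 1) * M := by
    rw [← hs, ← add_sum_erase univ e (mem_univ i), hi, zero_add]
    exact sum_filter_add_sum_filter_not _ _ _
  have hFs : ((m - 3 : ℕ) : ℝ) * M ≤ ∑ k ∈ F, e k := by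
    rcases le_total 3 m with hm | hm
    · rw [Nat.cast_sub hm]
      push_cast
      nlinarith
    · rw [Nat.sub_eq_zero_of_le hm, Nat.cast_zero, zero_mul]
      exact sum_nonneg fun k _ => h0 k
  have hF2 : (∑ k ∈ F, e k) * Real.log 2 ≤ ∑ k ∈ F, e k * Real.log ‖a i - a k‖ := by
    rw [sum_mul]
    refine sum_le_sum fun k hk => mul_le_mul_of_nonneg_left ?_ (h0 k)
    have h3 := (mem_filter.1 hk).2
    rw [not_lt] at h3
    exact Real.log_le_log (by norm_num) h3
  have hN2 : 0 ≤ ∑ k ∈ N, e k * Real.log ‖a i - a k‖ :=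
    sum_nonneg fun k hk => mul_nonneg (h0 k) (Real.log_nonneg (h.sep i k
      (ne_of_mem_erase (mem_filter.1 hk).1).symm))
  have h5 : ∑ k ∈ univ.erase i, e k * Real.log ‖a i - a k‖ =
      ∑ k ∈ N, e k * Real.log ‖a i - a k‖ + ∑ k ∈ F, e k * Real.log ‖a i - a k‖ :=
    (sum_filter_add_sum_filter_not _ _ _).symm
  rw [h5, Real.log_pow]
  have h6 : ((m - 3 : ℕ) : ℝ) * M * Real.log 2 ≤ (∑ k ∈ F, e k) * Real.log 2 :=
    mul_le_mul_of_nonneg_right hFs hl2.le
  linarith

/-- The properties of the configuration which are used, for the radius `R` of the values. -/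
structure Good {m : ℕ} (a : Fin (m + 1) → ℂ) (R : ℝ) : Prop where
  pos : 0 < R
  sep : ∀ i k, i ≠ k → 1 ≤ ‖a i - a k‖
  out : ∀ x ∈ outer a (1 / 4), 3 / 2 * R ≤ ∏ i, ‖x - a i‖
  recip : ∀ i, ∀ z : ℂ, ‖z‖ ≤ 1 / 4 →
    R * ∑ k ∈ univ.erase i, (‖a i - a k‖ - 1 / 4)⁻¹ ≤ 3 / 8 * ∏ k ∈ univ.erase i, ‖a i + z - a k‖
  lap : ∀ (i : Fin (m + 1)) (e : Fin (m + 1) → ℝ) (M : ℝ), 0 ≤ M → (∀ k, 0 ≤ e k) →
    (∀ k, e k ≤ 2 * M) → e i = 0 → ∑ k, e k = (m + 1) * M →
    M * Real.log (8 * R) ≤ ∑ k ∈ univ.erase i, e k * Real.log ‖a i - a k‖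

/-- the radius -/
noncomputable def rad (m : ℕ) : ℝ := 2 ^ (m - 3) / 8

theorem Conf.good (h : Conf a) : Good a (rad m) := by
  have h0 : (0 : ℝ) < 2 ^ (m - 3) := by positivity
  refine ⟨by unfold rad; positivity, h.sep, fun x hx => ?_, fun i z hz => ?_,
    fun i e M hM h0 h2 hi hs => ?_⟩
  · have h1 := h.out hx
    unfold rad
    linarith
  · have h1 := h.recip i hz
    unfold rad
    linarith
  · have e1 : 8 * rad m = 2 ^ (m - 3) := by
      unfold rad
      ring
    rw [e1]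
    exact h.lap i e hM h0 h2 hi hs

end Pool.Agent.J4H54.K2
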